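import Mathlib
import Pool.Agent.Lib.MP_ee7b66_ag.LC2
import Pool.Agent.Lib.MP_ee7b66_ag.Exc

/-!
# The affine part with the classical topology
-/

open scoped LinearAlgebra.Projectivization
open Pool.Agent.Lib.MP_8481ed_ag TopologicalSpace MvPolynomial Topology

namespace Pool.Agent.Lib.MP_ee7b66_ag

noncomputable section

variable {r : ℕ} (p : Fin r → Plane ℂ)

/-- The points of the blow-up outside the strict transform of the line `M = 0`, and outside the
exceptional curves over the points of this line, with the classical topology. -/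
def Aff (M : Fin 3 → ℂ) : Type := {x : BlowUp p // lin M x.vec ≠ 0}

/-- The underlying point of the blow-up. -/
def Aff.pt {M : Fin 3 → ℂ} (x : Aff p M) : BlowUp p := x.1

instance affTopology (M : Fin 3 → ℂ) : TopologicalSpace (Aff p M) :=
  (classical p).induced (Aff.pt p)

variable {p}

/-- Zariski open sets are open in the classical topology: the domain of regularity of `g` is the
set of points where `g` is regular with a value in `univ`. -/
lemma isOpen_classical_of_isOpen {U : Set (BlowUp p)} (hU : IsOpen U) : IsOpen[classical p] U := by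
  have hle : classical p ≤ zariski p := by
    refine le_generateFrom_iff_subset_isOpen.mpr ?_
    rintro V ⟨g, rfl⟩
    change IsOpen[classical p] {x | g ∈ stalk p 0 0 x}
    by_cases hne : ∃ x, g ∈ stalk p 0 0 x
    · obtain ⟨x, hx⟩ := hne
      obtain ⟨n, e, μ, a, b, ha, hb, hn, -, -, hl, hs⟩ := (isRegularAt_iff 0 0 x g).mp hx
      have hne' : n = e := by omega
      subst hne'
      have hb0 : b ≠ 0 := BlowUp.ne_zero_of_lead _ hl
      have hrat : IsRatFun g := ⟨n, a, b, ha, hb, hb0, hs⟩
      refine TopologicalSpace.GenerateOpen.basic _ ⟨(⟨g, hrat⟩ : FunField), Set.univ,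
        isOpen_univ, ?_⟩
      ext y
      constructor
      · intro hy
        have hy' : Reg p y (⟨g, hrat⟩ : FunField) := hy
        obtain ⟨c, hc⟩ := hy'.exists_val
        exact ⟨c, trivial, hc⟩
      · rintro ⟨c, -, hc⟩
        exact hc.reg
    · have he : {x | g ∈ stalk p 0 0 x} = (∅ : Set (BlowUp p)) := by
        ext y
        simp only [Set.mem_ofPred_eq, Set.mem_empty_iff_false, iff_false]
        exact fun hy => hne ⟨y, hy⟩
      rw [he]
      exact @isOpen_empty _ (classical p)
  exact hle U hU

/-- A function given by the values of a rational function is continuous. -/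
lemma continuous_of_val {M : Fin 3 → ℂ} (g : FunField) (f : Aff p M → ℂ)
    (hf : ∀ x, Val p (Aff.pt p x) g (f x)) : Continuous f := by
  refine continuous_def.mpr fun W hW => ?_
  refine (isOpen_induced_iff (t := classical p)).mpr ⟨{x | ∃ c ∈ W, Val p x g c}, ?_, ?_⟩
  · exact TopologicalSpace.GenerateOpen.basic _ ⟨g, W, hW, rfl⟩
  · ext x
    constructor
    · rintro ⟨c, hc, hx⟩
      have h1 : c = f x := hx.unique (hf x)
      change f x ∈ W
      rw [← h1]
      exact hc
    · intro hx
      exact ⟨f x, hx, hf x⟩

/-- Values of `c / M` on `Aff p M`: `val_lq_away`, `val_lq_exc`. -/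
lemma val_lq_aff {M : Fin 3 → ℂ} (x : Aff p M) (c : Fin 3 → ℂ) :
    Val p (Aff.pt p x) (lq c M) (lin c (Aff.pt p x).vec / lin M (Aff.pt p x).vec) := by
  obtain ⟨y, hy⟩ := x
  cases y with
  | away q hq => exact val_lq_away q hq c M hy
  | exc i L => exact val_lq_exc i L c M hy

end

end Pool.Agent.Lib.MP_ee7b66_ag
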