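import Mathlib
import Pool.Agent.Lib.MP_ee7b66_ag.G.Cl
import Pool.Agent.Lib.MP_ee7b66_ag.H.Inc
import Pool.Agent.Lib.MP_ee7b66_ag.Top.Model

/-!
# Affine coordinates, the eight points, the blow-down
-/

open scoped LinearAlgebra.Projectivization
open Pool.Agent.Lib.MP_8481ed_ag TopologicalSpace MvPolynomial Topology
open Pool.Agent.Lib.MP_ee7b66_ag.Top (C2 Sb Rb Pants loc)

namespace Pool.Agent.Lib.MP_ee7b66_ag

noncomputable section

/-- The linear form `X₀ - X₁`. -/
def lM : Fin 3 → ℂ := ![1, -1, 0]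

/-- The linear form `X₀`. -/
def lX : Fin 3 → ℂ := ![1, 0, 0]

/-- The linear form `X₂`. -/
def lZ : Fin 3 → ℂ := ![0, 0, 1]

/-- The blow-up of the affine plane `X₀ ≠ X₁` in eight points. -/
abbrev YT : Type := Aff hp lM

/-- The index of the `k`-th of the eight points. -/
def k8 (k : Fin 8) : Fin 12 := ⟨k.1 + 4, by omega⟩

/-- The index of the `j`-th of the eight lines. -/
def j8 (j : Fin 8) : Fin 9 := ⟨j.1 + 1, by omega⟩

/-- The affine coordinates `(X₀ / M, X₂ / M)` of a vector. -/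
def aff (v : Fin 3 → ℂ) : C2 := ![lin lX v / lin lM v, lin lZ v / lin lM v]

/-- The vector `(z₀, z₀ - 1, z₁)` with affine coordinates `z`. -/
def vecAff (z : C2) : Fin 3 → ℂ := ![z 0, z 0 - 1, z 1]

lemma lM_eq_lvec : lM = lvec 0 := rfl

lemma inc_zero_iff (i : Fin 12) : inc i 0 = true ↔ i.1 < 4 := by
  revert i
  decide

lemma lin_lM_pvec_small (i : Fin 12) (hi : i.1 < 4) : lin lM (pvec i) = 0 := by
  rw [lM_eq_lvec, inc_iff, inc_zero_iff]
  exact hi

lemma lin_lM_pvec (k : Fin 8) : lin lM (pvec (k8 k)) ≠ 0 := by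
  rw [lM_eq_lvec, Ne, inc_iff, inc_zero_iff]
  simp [k8]

/-- Every index is either `< 4` or of the form `k8 k`. -/
lemma k8_cases (i : Fin 12) : i.1 < 4 ∨ ∃ k, i = k8 k := by
  by_cases h : i.1 < 4
  · exact Or.inl h
  · refine Or.inr ⟨⟨i.1 - 4, by omega⟩, ?_⟩
    apply Fin.ext
    simp only [k8]
    omega

/-- The affine coordinates of the eight points. -/
def pt8 (k : Fin 8) : C2 := aff (pvec (k8 k))

lemma aff_smul (c : ℂ) (hc : c ≠ 0) (v : Fin 3 → ℂ) : aff (c • v) = aff v := by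
  unfold aff
  rw [lin_smul, lin_smul, lin_smul, mul_div_mul_left _ _ hc, mul_div_mul_left _ _ hc]

lemma lin_lM_eq (v : Fin 3 → ℂ) : lin lM v = v 0 - v 1 := by
  simp [lin, lM, Fin.sum_univ_three]
  ring

lemma lin_lX_eq (v : Fin 3 → ℂ) : lin lX v = v 0 := by
  simp [lin, lX, Fin.sum_univ_three]

lemma lin_lZ_eq (v : Fin 3 → ℂ) : lin lZ v = v 2 := by
  simp [lin, lZ, Fin.sum_univ_three]

lemma lin_lM_vecAff (z : C2) : lin lM (vecAff z) = 1 := by
  rw [lin_lM_eq]
  simp [vecAff]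

lemma vecAff_ne_zero (z : C2) : vecAff z ≠ 0 := by
  intro h
  have h1 := lin_lM_vecAff z
  rw [h] at h1
  simp [lin] at h1

lemma aff_vecAff (z : C2) : aff (vecAff z) = z := by
  unfold aff
  rw [lin_lM_vecAff, lin_lX_eq, lin_lZ_eq, div_one, div_one]
  funext i
  fin_cases i <;> simp [vecAff]

lemma vecAff_aff {v : Fin 3 → ℂ} (h : lin lM v ≠ 0) : vecAff (aff v) = (lin lM v)⁻¹ • v := by
  unfold vecAff aff
  rw [lin_lX_eq, lin_lZ_eq]
  rw [lin_lM_eq] at h ⊢
  funext i
  fin_cases i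
  · simp
    field_simp
  · simp
    field_simp
    ring
  · simp
    field_simp

/-- The representative of `hp i` is a multiple of `pvec i`. -/
lemma exists_rep_hp (i : Fin 12) : ∃ c : ℂ, c ≠ 0 ∧ (hp i).rep = c • pvec i := by
  obtain ⟨c, hc⟩ := Projectivization.exists_smul_eq_mk_rep ℂ (pvec i) (pvec_ne_zero i)
  exact ⟨c, c.ne_zero, hc.symm⟩

lemma aff_rep_hp (k : Fin 8) : aff (hp (k8 k)).rep = pt8 k := by
  obtain ⟨c, hc, h⟩ := exists_rep_hp (k8 k)
  rw [h, aff_smul c hc, pt8]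

lemma lin_lM_rep_hp (i : Fin 12) : lin lM (hp i).rep ≠ 0 ↔ ∃ k, i = k8 k := by
  obtain ⟨c, hc, h⟩ := exists_rep_hp i
  rw [h, lin_smul]
  constructor
  · intro h1
    rcases k8_cases i with h2 | h2
    · rw [lin_lM_pvec_small i h2, mul_zero] at h1
      exact absurd rfl h1
    · exact h2
  · rintro ⟨k, rfl⟩
    exact mul_ne_zero hc (lin_lM_pvec k)

lemma pt8_injective : Function.Injective pt8 := by
  intro k l h
  have h1 := vecAff_aff (lin_lM_pvec k)
  have h2 := vecAff_aff (lin_lM_pvec l)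
  have h3 : aff (pvec (k8 k)) = aff (pvec (k8 l)) := h
  rw [h3, h2] at h1
  have h4 : hp (k8 k) = hp (k8 l) := by
    unfold hp
    rw [Projectivization.mk_eq_mk_iff']
    refine ⟨lin lM (pvec (k8 k)) * (lin lM (pvec (k8 l)))⁻¹, ?_⟩
    rw [mul_smul, h1, smul_inv_smul₀ (lin_lM_pvec k)]
  have h5 := hp_injective h4
  apply Fin.ext
  have h6 := congrArg Fin.val h5
  simp only [k8] at h6
  omega

/-- The point of the plane with affine coordinates `z`. -/
def planePt (z : C2) : Plane ℂ := Projectivization.mk ℂ (vecAff z) (vecAff_ne_zero z)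

lemma exists_rep_planePt (z : C2) : ∃ c : ℂ, c ≠ 0 ∧ (planePt z).rep = c • vecAff z := by
  obtain ⟨c, hc⟩ := Projectivization.exists_smul_eq_mk_rep ℂ (vecAff z) (vecAff_ne_zero z)
  exact ⟨c, c.ne_zero, hc.symm⟩

lemma planePt_ne {z : C2} (hz : ∀ k, z ≠ pt8 k) (i : Fin 12) : planePt z ≠ hp i := by
  intro h
  obtain ⟨c, hc, h1⟩ := exists_rep_planePt z
  have h2 : aff (planePt z).rep = z := by rw [h1, aff_smul c hc, aff_vecAff]
  have h3 : lin lM (planePt z).rep ≠ 0 := by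
    rw [h1, lin_smul, lin_lM_vecAff, mul_one]
    exact hc
  rw [h] at h2 h3
  obtain ⟨k, rfl⟩ := (lin_lM_rep_hp i).1 h3
  rw [aff_rep_hp] at h2
  exact hz k h2.symm

lemma lin_rep_planePt (z : C2) : lin lM (planePt z).rep ≠ 0 := by
  obtain ⟨c, hc, h1⟩ := exists_rep_planePt z
  rw [h1, lin_smul, lin_lM_vecAff, mul_one]
  exact hc

lemma aff_rep_planePt (z : C2) : aff (planePt z).rep = z := by
  obtain ⟨c, hc, h1⟩ := exists_rep_planePt z
  rw [h1, aff_smul c hc, aff_vecAff]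

/-- The determinant of three linear forms. -/
def det3 (a b c : Fin 3 → ℂ) : ℂ :=
  a 0 * (b 1 * c 2 - b 2 * c 1) - a 1 * (b 0 * c 2 - b 2 * c 0) + a 2 * (b 0 * c 1 - b 1 * c 0)

lemma det_eq_det3 (a b c : Fin 3 → ℂ) :
    Matrix.det (Matrix.of ![a, b, c]) = det3 a b c := by
  rw [Matrix.det_fin_three]
  simp only [Matrix.of_apply, Matrix.cons_val_zero, Matrix.cons_val_one, Matrix.cons_val, det3]
  ring

/-- The blow-down. -/
def piFun (x : YT) : C2 := aff (Aff.pt hp x).vec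

lemma continuous_piFun : Continuous piFun := by
  refine continuous_pi fun i => ?_
  fin_cases i
  · exact continuous_of_val (lq lX lM) _ fun x => val_lq_aff x lX
  · exact continuous_of_val (lq lZ lM) _ fun x => val_lq_aff x lZ

/-- The blow-down of a point is the `k`-th of the eight points iff the point lies on the
exceptional curve. -/
lemma piFun_eq_pt8_iff (x : YT) (k : Fin 8) :
    piFun x = pt8 k ↔ ∃ L, Aff.pt hp x = .exc (k8 k) L := by
  obtain ⟨x, hx⟩ := x
  constructor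
  · intro h
    change aff x.vec = pt8 k at h
    have h1 : vecAff (aff x.vec) = vecAff (aff (pvec (k8 k))) := by rw [h]; rfl
    rw [vecAff_aff hx, vecAff_aff (lin_lM_pvec k)] at h1
    have h2 : x.vec = (lin lM x.vec * (lin lM (pvec (k8 k)))⁻¹) • pvec (k8 k) := by
      rw [mul_smul, ← h1, smul_inv_smul₀ hx]
    have h3 : x.center = hp (k8 k) := by
      rw [← x.center.mk_rep, hp, Projectivization.mk_eq_mk_iff']
      exact ⟨_, by rw [← h2, BlowUp.vec_eq]⟩
    cases x with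
    | away q hq => exact (hq (k8 k) h3).elim
    | exc i L =>
      have h4 : i = k8 k := hp_injective h3
      subst h4
      exact ⟨L, rfl⟩
  · rintro ⟨L, h⟩
    change x = .exc (k8 k) L at h
    subst h
    exact aff_rep_hp k

end

end Pool.Agent.Lib.MP_ee7b66_ag
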