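import Mathlib
import Pool.Agent.Lib.MP_ee7b66_ag.Exc
import Pool.Agent.Lib.MP_ee7b66_ag.H.Inc

/-!
# Charts along the strict transform of a line: definitions
-/

open scoped LinearAlgebra.Projectivization
open Pool.Agent.Lib.MP_8481ed_ag TopologicalSpace MvPolynomial Topology

namespace Pool.Agent.Lib.MP_ee7b66_ag

noncomputable section

variable {r : ℕ} {p : Fin r → Plane ℂ}

/-- A frame `(M, T, B)` such that the line `B = 0` contains exactly three of the blown up points
outside the line `M = 0`, namely `p (k i)` (`i : Fin 3`), with `T / M = t i` there. The numbers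
`b l` are the values of `B / M` at the other blown up points. -/
structure LineData (p : Fin r → Plane ℂ) extends Frame where
  k : Fin 3 → Fin r
  t : Fin 3 → ℂ
  b : Fin r → ℂ
  t_inj : Function.Injective t
  hM : ∀ i, lin (c 0) (p (k i)).rep ≠ 0
  hT : ∀ i, lin (c 1) (p (k i)).rep = t i * lin (c 0) (p (k i)).rep
  hB : ∀ i, lin (c 2) (p (k i)).rep = 0
  hb : ∀ l, (∀ i, l ≠ k i) → lin (c 0) (p l).rep ≠ 0 →
    b l ≠ 0 ∧ lin (c 2) (p l).rep = b l * lin (c 0) (p l).rep
  inj : Function.Injective p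

namespace LineData

variable (D : LineData p)

/-- The coefficients of the linear form `T - t M`. -/
def tf (i : Fin 3) : Fin 3 → ℂ := D.c 1 - D.t i • D.c 0

lemma det_frameAt (i : Fin 3) : Matrix.det (Matrix.of ![D.c 0, D.tf i, D.c 2]) ≠ 0 := by
  have h1 : Matrix.det (Matrix.of ![D.c 0, D.tf i, D.c 2]) = Matrix.det D.c := by
    have e0 : ∀ j, Matrix.of ![D.c 0, D.tf i, D.c 2] 0 j = D.c 0 j := fun _ => rfl
    have e1 : ∀ j, Matrix.of ![D.c 0, D.tf i, D.c 2] 1 j = D.c 1 j - D.t i * D.c 0 j :=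
      fun _ => rfl
    have e2 : ∀ j, Matrix.of ![D.c 0, D.tf i, D.c 2] 2 j = D.c 2 j := fun _ => rfl
    rw [Matrix.det_fin_three, Matrix.det_fin_three]
    simp only [e0, e1, e2]
    ring
  rw [h1]
  exact D.det_ne

lemma lin_tf (i : Fin 3) (v : Fin 3 → ℂ) : lin (D.tf i) v = lin (D.c 1) v - D.t i * lin (D.c 0) v := by
  simp only [lin, tf, Fin.sum_univ_three, Pi.sub_apply, Pi.smul_apply, smul_eq_mul]
  ring

lemma lin_tf_rep (i : Fin 3) : lin (D.tf i) (p (D.k i)).rep = 0 := by
  rw [lin_tf, D.hT i, sub_self]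

lemma k_injective : Function.Injective D.k := by
  intro i i' h
  apply D.t_inj
  have h1 := D.hT i
  have h2 := D.hT i'
  rw [← h, h1] at h2
  exact mul_right_cancel₀ (D.hM i) h2

/-- The frame `(M, T - t i M, B)` at the point `p (k i)`. -/
def frameAt (i : Fin 3) : FrameAt p (D.k i) where
  c := Matrix.of ![D.c 0, D.tf i, D.c 2]
  det_ne := D.det_frameAt i
  hU := D.lin_tf_rep i
  hV := D.hB i

/-- The equation of the complement of the chart: the product of the polynomials
`s ∏ (t - t i) - b l` over the blown up points `p l` outside `M = 0` and outside the line. -/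
def gpoly : MvPolynomial (Fin 2) ℂ :=
  open Classical in
  ∏ l : Fin r, if (∀ i, l ≠ D.k i) ∧ lin (D.c 0) (p l).rep ≠ 0 then
    MvPolynomial.X 1 * ∏ i, (MvPolynomial.X 0 - MvPolynomial.C (D.t i)) - MvPolynomial.C (D.b l)
  else 1

/-- The domain of the chart. -/
def dom : BlowUp p → Prop
  | .away q _ => lin (D.c 0) q.rep ≠ 0 ∧ (∀ i, lin (D.tf i) q.rep ≠ 0) ∧
      ∀ l, (∀ i, l ≠ D.k i) → lin (D.c 0) (p l).rep ≠ 0 →
        lin (D.c 2) q.rep ≠ D.b l * lin (D.c 0) q.rep
  | .exc l L => ∃ i, l = D.k i ∧ ∃ w ∈ L.1, lin (D.tf i) w ≠ 0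

/-- The first coordinate `t = T / M`. -/
def u : FunField := lq (D.c 1) (D.c 0)

/-- The second coordinate `s = (B / M) / ∏ (T / M - t i)`. -/
def v : FunField := lq (D.c 2) (D.c 0) / ∏ i, lq (D.tf i) (D.c 0)

/-- The coordinates. -/
def crd : BlowUp p → Fin 2 → ℂ
  | .away q _ => ![lin (D.c 1) q.rep / lin (D.c 0) q.rep,
      (lin (D.c 2) q.rep / lin (D.c 0) q.rep) / ∏ i, (lin (D.tf i) q.rep / lin (D.c 0) q.rep)]
  | .exc l L =>
      open Classical in
      if h : ∃ i, l = D.k i then
        ![D.t h.choose, (lin (D.c 2) (LineThrough.dir L) / lin (D.tf h.choose) (LineThrough.dir L)) /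
          ∏ i, if i = h.choose then 1 else D.t h.choose - D.t i]
      else 0

lemma crd_exc (i : Fin 3) (L : LineThrough (p (D.k i))) : D.crd (.exc (D.k i) L) =
    ![D.t i, (lin (D.c 2) (LineThrough.dir L) / lin (D.tf i) (LineThrough.dir L)) /
      ∏ i', if i' = i then 1 else D.t i - D.t i'] := by
  have h : ∃ i', D.k i = D.k i' := ⟨i, rfl⟩
  have hc : h.choose = i := (D.k_injective h.choose_spec).symm
  have h1 : D.crd (.exc (D.k i) L) = ![D.t h.choose, (lin (D.c 2) (LineThrough.dir L) /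
      lin (D.tf h.choose) (LineThrough.dir L)) /
        ∏ i', if i' = h.choose then 1 else D.t h.choose - D.t i'] := by
    change (if h : ∃ i', D.k i = D.k i' then _ else _) = _
    exact dif_pos h
  rw [h1, hc]

/-- a line form which vanishes at the point does not vanish on the line iff it does not vanish on
the direction vector -/
lemma lineDefs_dir {P : Plane ℂ} (L : LineThrough P) {c : Fin 3 → ℂ} (hc : lin c P.rep = 0)
    (h : ∃ w ∈ L.1, lin c w ≠ 0) : lin c (LineThrough.dir L) ≠ 0 := by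
  obtain ⟨w, hw, hw1⟩ := h
  obtain ⟨α, β, rfl⟩ := L.exists_coord w hw
  rw [lin_add, lin_smul, lin_smul, hc, mul_zero, zero_add] at hw1
  exact right_ne_zero_of_mul hw1

lemma dom_exc (i : Fin 3) (L : LineThrough (p (D.k i))) : D.dom (.exc (D.k i) L) ↔
    lin (D.tf i) (LineThrough.dir L) ≠ 0 := by
  constructor
  · rintro ⟨i', hi, hw⟩
    have h1 := D.k_injective hi
    subst h1
    exact lineDefs_dir L (D.lin_tf_rep i) hw
  · intro h
    exact ⟨i, rfl, LineThrough.dir L, L.dir_mem, h⟩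

end LineData

end

end Pool.Agent.Lib.MP_ee7b66_ag
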