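import Mathlib
import Pool.Agent.Lib.MP_ee7b66_ag.G.Co
import Pool.Agent.Lib.MP_ee7b66_ag.G.LineDefs

/-!
# The data of the eight lines
-/

open scoped LinearAlgebra.Projectivization
open Pool.Agent.Lib.MP_8481ed_ag TopologicalSpace MvPolynomial Topology
open Pool.Agent.Lib.MP_ee7b66_ag.Top (C2 Sb Rb Pants loc)

namespace Pool.Agent.Lib.MP_ee7b66_ag

noncomputable section

/-- The coordinate along the lines: `X₂` for the lines `X₀ = ωⁱ X₁`, `X₀` for the others. -/
def tcoef (j : Fin 8) : Fin 3 → ℂ := if j.1 < 2 then lZ else lX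

/-- The three of the eight points on the `j`-th line. -/
def kk : Fin 8 → Fin 3 → Fin 8 :=
  ![![5, 6, 7], ![2, 3, 4], ![0, 3, 7], ![0, 2, 6], ![0, 4, 5], ![1, 2, 5], ![1, 3, 6], ![1, 4, 7]]

/-- Incidence: the `k`-th point lies on the `j`-th line iff it is in the list (`inc_iff`). -/
lemma lin_lvec_pvec_iff (j k : Fin 8) :
    lin (lvec (j8 j)) (pvec (k8 k)) = 0 ↔ ∃ i, k = kk j i := by
  rw [inc_iff]
  revert j k
  decide

/-- A vector is determined by the values of the forms of a frame. -/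
lemma Frame.ext_lin (F : Frame) {v w : Fin 3 → ℂ} (h : ∀ j, lin (F.c j) v = lin (F.c j) w) :
    v = w := by
  rw [← F.vecOf_lin v, ← F.vecOf_lin w]
  congr 1
  funext j
  exact h j

lemma det_frame8 (j : Fin 8) :
    Matrix.det (Matrix.of ![lM, tcoef j, lvec (j8 j)]) ≠ 0 := by
  have h0 := om_ne_zero
  have h1 : om - 1 ≠ 0 := sub_ne_zero.2 om_ne_one
  have h2 : om ^ 2 - 1 ≠ 0 := sub_ne_zero.2 om_sq_ne_one
  rw [det_eq_det3]
  fin_cases j
  · intro h
    apply h1
    simp [det3, lM, tcoef, lZ, lvec, j8] at h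
    linear_combination h
  · intro h
    apply h2
    simp [det3, lM, tcoef, lZ, lvec, j8] at h
    linear_combination h
  all_goals simp [det3, lM, tcoef, lX, lvec, j8, h0]

lemma t8_injective (j : Fin 8) : Function.Injective fun i : Fin 3 =>
    lin (tcoef j) (pvec (k8 (kk j i))) / lin lM (pvec (k8 (kk j i))) := by
  intro i i' h
  have h' : lin (tcoef j) (pvec (k8 (kk j i))) / lin lM (pvec (k8 (kk j i))) =
    lin (tcoef j) (pvec (k8 (kk j i'))) / lin lM (pvec (k8 (kk j i'))) := h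
  have hM := lin_lM_pvec (kk j i)
  have hM' := lin_lM_pvec (kk j i')
  have hB := (lin_lvec_pvec_iff j (kk j i)).2 ⟨i, rfl⟩
  have hB' := (lin_lvec_pvec_iff j (kk j i')).2 ⟨i', rfl⟩
  rw [div_eq_div_iff hM hM'] at h'
  have hv : lin lM (pvec (k8 (kk j i'))) • pvec (k8 (kk j i)) =
      lin lM (pvec (k8 (kk j i))) • pvec (k8 (kk j i')) := by
    refine Frame.ext_lin ⟨Matrix.of ![lM, tcoef j, lvec (j8 j)], det_frame8 j⟩ fun l => ?_
    rw [lin_smul, lin_smul]
    fin_cases l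
    · exact mul_comm _ _
    · change _ * lin (tcoef j) (pvec (k8 (kk j i))) = _ * lin (tcoef j) (pvec (k8 (kk j i')))
      linear_combination h'
    · change _ * lin (lvec (j8 j)) (pvec (k8 (kk j i))) = _ * lin (lvec (j8 j)) (pvec (k8 (kk j i')))
      rw [hB, hB', mul_zero, mul_zero]
  have hp' : hp (k8 (kk j i)) = hp (k8 (kk j i')) := by
    unfold hp
    rw [Projectivization.mk_eq_mk_iff']
    refine ⟨(lin lM (pvec (k8 (kk j i'))))⁻¹ * lin lM (pvec (k8 (kk j i))), ?_⟩
    rw [mul_smul, ← hv, inv_smul_smul₀ hM']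
  have h1 := hp_injective hp'
  have key : ∀ (j : Fin 8) (i i' : Fin 3), k8 (kk j i) = k8 (kk j i') → i = i' := by decide
  exact key j i i' h1

lemma ld_hM (j : Fin 8) (i : Fin 3) : lin lM (hp (k8 (kk j i))).rep ≠ 0 :=
  (lin_lM_rep_hp _).2 ⟨_, rfl⟩

lemma ld_hT (j : Fin 8) (i : Fin 3) : lin (tcoef j) (hp (k8 (kk j i))).rep =
    lin (tcoef j) (pvec (k8 (kk j i))) / lin lM (pvec (k8 (kk j i))) *
      lin lM (hp (k8 (kk j i))).rep := by
  obtain ⟨c, hc, h⟩ := exists_rep_hp (k8 (kk j i))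
  rw [h, lin_smul, lin_smul]
  have hM := lin_lM_pvec (kk j i)
  field_simp

lemma ld_hB (j : Fin 8) (i : Fin 3) : lin (lvec (j8 j)) (hp (k8 (kk j i))).rep = 0 := by
  rw [lin_hp_rep, ← inc_iff, lin_lvec_pvec_iff]
  exact ⟨i, rfl⟩

lemma ld_hb (j : Fin 8) (l : Fin 12) (hl : ∀ i, l ≠ k8 (kk j i)) (hM : lin lM (hp l).rep ≠ 0) :
    lin (lvec (j8 j)) (pvec l) / lin lM (pvec l) ≠ 0 ∧
      lin (lvec (j8 j)) (hp l).rep =
        lin (lvec (j8 j)) (pvec l) / lin lM (pvec l) * lin lM (hp l).rep := by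
  obtain ⟨k, rfl⟩ := (lin_lM_rep_hp l).1 hM
  have hM' := lin_lM_pvec k
  constructor
  · refine div_ne_zero (fun h => ?_) hM'
    obtain ⟨i, rfl⟩ := (lin_lvec_pvec_iff j k).1 h
    exact hl i rfl
  · obtain ⟨c, hc, h⟩ := exists_rep_hp (k8 k)
    rw [h, lin_smul, lin_smul]
    field_simp

/-- The data of the `j`-th line. -/
def ld (j : Fin 8) : LineData hp where
  c := Matrix.of ![lM, tcoef j, lvec (j8 j)]
  det_ne := det_frame8 j
  k := fun i => k8 (kk j i)
  t := fun i => lin (tcoef j) (pvec (k8 (kk j i))) / lin lM (pvec (k8 (kk j i)))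
  b := fun l => lin (lvec (j8 j)) (pvec l) / lin lM (pvec l)
  t_inj := t8_injective j
  hM := ld_hM j
  hT := ld_hT j
  hB := ld_hB j
  hb := ld_hb j
  inj := hp_injective

lemma ld_c0 (j : Fin 8) : (ld j).c 0 = lM := rfl
lemma ld_c1 (j : Fin 8) : (ld j).c 1 = tcoef j := rfl
lemma ld_c2 (j : Fin 8) : (ld j).c 2 = lvec (j8 j) := rfl
lemma ld_k (j : Fin 8) (i : Fin 3) : (ld j).k i = k8 (kk j i) := rfl

/-- Two different lines which are not parallel meet in one of the eight points. -/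
lemma exists_common (i j : Fin 8) (hij : i ≠ j)
    (h : det3 lM (lvec (j8 i)) (lvec (j8 j)) ≠ 0) :
    ∃ a b : Fin 3, kk i a = kk j b := by
  have key : ∀ i j : Fin 8, (∃ l : Fin 12, l.1 < 4 ∧ inc l (j8 i) = true ∧ inc l (j8 j) = true) ∨
      ∃ a b : Fin 3, kk i a = kk j b := by decide
  rcases key i j with ⟨l, hl, h1, h2⟩ | h1
  · exfalso
    apply pvec_ne_zero l
    refine Frame.ext_lin ⟨Matrix.of ![lM, lvec (j8 i), lvec (j8 j)], by rwa [det_eq_det3]⟩
      fun m => ?_
    have h0 : ∀ c : Fin 3 → ℂ, lin c 0 = 0 := fun c => by simp [lin]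
    rw [h0]
    fin_cases m
    · exact lin_lM_pvec_small l hl
    · exact (inc_iff l (j8 i)).2 h1
    · exact (inc_iff l (j8 j)).2 h2
  · exact h1

/-- Two different lines have at most one of the eight points in common. -/
lemma common_unique (i j : Fin 8) (hij : i ≠ j) (a a' b b' : Fin 3) (h : kk i a = kk j b)
    (h' : kk i a' = kk j b') : a = a' := by
  have key : ∀ i j : Fin 8, i ≠ j → ∀ a a' b b' : Fin 3, kk i a = kk j b → kk i a' = kk j b' →
      a = a' := by decide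
  exact key i j hij a a' b b' h h'

/-- Two lines with a common point among the eight are not parallel. -/
lemma det3_ne_zero_of_common {i j : Fin 8} (hij : i ≠ j) {a b : Fin 3} (h : kk i a = kk j b) :
    det3 lM (lvec (j8 i)) (lvec (j8 j)) ≠ 0 := by
  intro hdet
  rw [← det_eq_det3] at hdet
  obtain ⟨w, hw, hw0⟩ := Matrix.exists_mulVec_eq_zero_iff.2 hdet
  have hlin : ∀ m, lin ((Matrix.of ![lM, lvec (j8 i), lvec (j8 j)]) m) w = 0 := by
    intro m
    have := congrFun hw0 m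
    simpa [Matrix.mulVec, dotProduct, lin] using this
  have h0 : lin lM w = 0 := hlin 0
  have h1 : lin (lvec (j8 i)) w = 0 := hlin 1
  have h2 : lin (lvec (j8 j)) w = 0 := hlin 2
  have hle : ∀ c : Fin 3 → ℂ, lin c w = 0 → (Projectivization.mk ℂ w hw).submodule ≤ lker c := by
    intro c hc
    rw [Projectivization.submodule_mk, Submodule.span_singleton_le_iff_mem, mem_lker]
    exact hc
  have hne : hl (j8 i) ≠ hl (j8 j) := by
    refine hl_injective.ne fun h3 => hij ?_
    have h4 := congrArg Fin.val h3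
    simp only [j8] at h4
    apply Fin.ext
    omega
  have h3 := two_lines (finrank_hl (j8 i)) (finrank_hl (j8 j)) hne (hle _ h1) (hle _ h2)
    ((submodule_le_lker _ _).2 (ld_hB i a)) ((submodule_le_lker _ _).2 (by
      have h4 := ld_hB j b
      rwa [← h] at h4))
  have h4 := ld_hM i a
  rw [← h3] at h4
  apply h4
  have h5 := (submodule_le_lker _ _).1 (hle _ h0)
  exact h5

/-- Parallel lines: the equations differ by a constant. -/
lemma exists_parallel (i j : Fin 8) (hij : i ≠ j)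
    (h : det3 lM (lvec (j8 i)) (lvec (j8 j)) = 0) :
    ∃ κ c : ℂ, c ≠ 0 ∧ lvec (j8 i) = κ • lvec (j8 j) + c • lM := by
  have h0 := om_ne_zero
  have h3 := om_cube
  have hr := om_rel
  have key : ∀ i j : Fin 8, i ≠ j → (∃ a b : Fin 3, kk i a = kk j b) ∨
      (i = 0 ∧ j = 1) ∨ (i = 1 ∧ j = 0) ∨ (i = 2 ∧ j = 5) ∨ (i = 5 ∧ j = 2) ∨ (i = 3 ∧ j = 7) ∨
      (i = 7 ∧ j = 3) ∨ (i = 4 ∧ j = 6) ∨ (i = 6 ∧ j = 4) := by decide
  rcases key i j hij with ⟨a, b, h1⟩ | h1 | h1 | h1 | h1 | h1 | h1 | h1 | h1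
  · exact absurd h (det3_ne_zero_of_common hij h1)
  all_goals obtain ⟨rfl, rfl⟩ := h1
  · refine ⟨-om, -om ^ 2, by simp [h0], ?_⟩
    funext m
    fin_cases m <;> simp [lvec, j8, lM]
    · linear_combination hr
    · linear_combination -hr - h3
  · refine ⟨-om ^ 2, -om, by simp [h0], ?_⟩
    funext m
    fin_cases m <;> simp [lvec, j8, lM]
    · linear_combination hr
    · linear_combination -hr - h3
  · refine ⟨-1, -1, by simp, ?_⟩
    funext m
    fin_cases m <;> simp [lvec, j8, lM]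
  · refine ⟨-1, -1, by simp, ?_⟩
    funext m
    fin_cases m <;> simp [lvec, j8, lM]
  · refine ⟨-om, -1, by simp, ?_⟩
    funext m
    fin_cases m <;> simp [lvec, j8, lM]
    linear_combination -h3
  · refine ⟨-om ^ 2, -om ^ 2, by simp [h0], ?_⟩
    funext m
    fin_cases m <;> simp [lvec, j8, lM]
    linear_combination -h3
  · refine ⟨-om ^ 2, -1, by simp, ?_⟩
    funext m
    fin_cases m <;> simp [lvec, j8, lM]
    linear_combination -h3
  · refine ⟨-om, -om, by simp [h0], ?_⟩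
    funext m
    fin_cases m <;> simp [lvec, j8, lM]
    linear_combination -h3

/-- The tube of size `δ` around the `j`-th line. -/
def Tube (j : Fin 8) (δ : ℝ) (y : BlowUp hp) : Prop :=
  (ld j).dom y ∧ ‖(ld j).crd y 1‖ * (1 + ‖(ld j).crd y 0‖) ^ 3 < δ

/-- The domain of the line chart lies in the affine part. -/
lemma ld_dom_aff (j : Fin 8) {y : BlowUp hp} (hy : (ld j).dom y) : lin lM y.vec ≠ 0 := by
  cases y with
  | away q hq => exact hy.1
  | exc l L =>
    obtain ⟨i, hi, -⟩ := hy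
    subst hi
    exact ld_hM j i

/-- `IsDir k d y`: `d` is the direction of `y` seen from the `k`-th point. -/
def IsDir (k : Fin 8) (d : Fin 3 → ℂ) : BlowUp hp → Prop
  | .away q _ => lin lM q.rep ≠ 0 ∧ d = vecAff (aff q.rep) - vecAff (pt8 k)
  | .exc i L => i = k8 k ∧ d ∈ L.1 ∧ lin lM d = 0

lemma IsDir.lM_eq {k : Fin 8} {d : Fin 3 → ℂ} {y : BlowUp hp} (h : IsDir k d y) :
    lin lM d = 0 := by
  cases y with
  | away q hq =>
    rw [h.2]
    have h1 : ∀ v w : Fin 3 → ℂ, lin lM (v - w) = lin lM v - lin lM w := by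
      intro v w
      simp only [lin, Fin.sum_univ_three, Pi.sub_apply]
      ring
    rw [h1, lin_lM_vecAff, lin_lM_vecAff, sub_self]
  | exc i L => exact h.2.2

end

end Pool.Agent.Lib.MP_ee7b66_ag
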