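import Mathlib
import Pool.Agent.Lib.MP_ee7b66_ag.G.Ld

/-!
# The three lines through a point
-/

open scoped LinearAlgebra.Projectivization
open Pool.Agent.Lib.MP_8481ed_ag TopologicalSpace MvPolynomial Topology
open Pool.Agent.Lib.MP_ee7b66_ag.Top (C2 Sb Rb Pants loc)

namespace Pool.Agent.Lib.MP_ee7b66_ag

noncomputable section

/-- The three of the eight lines through the `k`-th point: the first one is `V = 0`, the second one
`V = U` and the third one `U = 0` in the frame `(M, U, V) = (lM, pu k, pv k)`. -/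
def inc8 : Fin 8 → Fin 3 → Fin 8 :=
  ![![3, 4, 2], ![6, 7, 5], ![5, 3, 1], ![6, 2, 1], ![7, 4, 1], ![5, 4, 0], ![6, 3, 0],
    ![7, 2, 0]]

/-- The equation of the third line through the `k`-th point. -/
def pu : Fin 8 → Fin 3 → ℂ := fun k => lvec (j8 (inc8 k 2))

/-- A multiple `κ λ` of the equation `λ` of the first line through the `k`-th point such that
`κ λ - pu k` is a multiple of the equation of the second line. -/
lemma exists_pv (k : Fin 8) : ∃ κ κ' : ℂ, κ ≠ 0 ∧ κ' ≠ 0 ∧
    κ • lvec (j8 (inc8 k 0)) - lvec (j8 (inc8 k 2)) = κ' • lvec (j8 (inc8 k 1)) := by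
  have h0 := om_ne_zero
  have h3 := om_cube
  have h2 : om ^ 2 = -1 - om := by linear_combination om_rel
  have h4 : om ^ 4 = om := by linear_combination om * h3
  refine ⟨![-om, -om, -1, -om ^ 2, -om, -1, -om ^ 2, -om] k,
    ![om ^ 2, om ^ 2, om ^ 2, om ^ 2, om ^ 2, om, om, om] k, ?_, ?_, ?_⟩
  · fin_cases k <;> simp [h0]
  · fin_cases k <;> simp [h0]
  · funext m
    fin_cases k <;> fin_cases m <;> simp [lvec, j8, inc8] <;> (try ring_nf) <;>
      (try simp only [h2, h3, h4]) <;> (try ring)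

/-- The equation `V` of the first line through the `k`-th point. -/
def pv (k : Fin 8) : Fin 3 → ℂ := (exists_pv k).choose • lvec (j8 (inc8 k 0))

/-- Incidence: the lines through the `k`-th point are exactly the three lines of the table. -/
lemma lin_lvec_pvec_iff' (j k : Fin 8) :
    lin (lvec (j8 j)) (pvec (k8 k)) = 0 ↔ ∃ i, j = inc8 k i := by
  rw [inc_iff]
  revert j k
  decide

/-- The `k`-th point is in the list of each of its three lines. -/
lemma exists_kk (k : Fin 8) (i : Fin 3) : ∃ i₀, k = kk (inc8 k i) i₀ := by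
  revert k i
  decide

lemma lin_smul_left (t : ℂ) (c v : Fin 3 → ℂ) : lin (t • c) v = t * lin c v := by
  simp only [lin, Fin.sum_univ_three, Pi.smul_apply, smul_eq_mul]
  ring

lemma det_frP (k : Fin 8) : Matrix.det (Matrix.of ![lM, pu k, pv k]) ≠ 0 := by
  rw [det_eq_det3]
  have hκ : (exists_pv k).choose ≠ 0 := (exists_pv k).choose_spec.choose_spec.1
  have h1 : det3 lM (pu k) (pv k) = (exists_pv k).choose *
      det3 lM (lvec (j8 (inc8 k 2))) (lvec (j8 (inc8 k 0))) := by
    unfold pv pu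
    generalize (exists_pv k).choose = κ
    simp only [det3, Pi.smul_apply, smul_eq_mul]
    ring
  rw [h1]
  refine mul_ne_zero hκ ?_
  obtain ⟨a, ha⟩ := exists_kk k 2
  obtain ⟨b, hb⟩ := exists_kk k 0
  have hne : inc8 k 2 ≠ inc8 k 0 := by
    have key : ∀ k, inc8 k 2 ≠ inc8 k 0 := by decide
    exact key k
  exact det3_ne_zero_of_common hne (a := a) (b := b) (by rw [← ha, ← hb])

lemma lin_lvec_rep (k : Fin 8) (i : Fin 3) :
    lin (lvec (j8 (inc8 k i))) (hp (k8 k)).rep = 0 := by
  rw [lin_hp_rep, ← inc_iff, lin_lvec_pvec_iff']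
  exact ⟨i, rfl⟩

lemma lin_pu_rep (k : Fin 8) : lin (pu k) (hp (k8 k)).rep = 0 := lin_lvec_rep k 2

lemma lin_pv_rep (k : Fin 8) : lin (pv k) (hp (k8 k)).rep = 0 := by
  unfold pv
  rw [lin_smul_left, lin_lvec_rep, mul_zero]

/-- The frame `(M, U, V)` at the `k`-th point. -/
def frP (k : Fin 8) : FrameAt hp (k8 k) where
  c := Matrix.of ![lM, pu k, pv k]
  det_ne := det_frP k
  hU := lin_pu_rep k
  hV := lin_pv_rep k

/-- The points with slope `w ≠ 0, 1` are on none of the eight lines. -/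
lemma th_not_on (k j : Fin 8) (w : Pants) (L : LineThrough (hp (k8 k)))
    (hU : lin (pu k) (LineThrough.dir L) ≠ 0)
    (hw : lin (pv k) (LineThrough.dir L) / lin (pu k) (LineThrough.dir L) = w.1) :
    L.1 ≠ hl (j8 j) := by
  intro hL
  have h1 := L.rep_mem
  have h2 := L.dir_mem
  rw [hL, hl, mem_lker] at h1 h2
  obtain ⟨i, rfl⟩ := (lin_lvec_pvec_iff' j k).1 ((inc_iff _ _).2 ((lin_hp_rep _ _).1 h1))
  obtain ⟨κ', hκ, hκ', hrel⟩ := (exists_pv k).choose_spec
  fin_cases i
  · have h3 : lin (pv k) (LineThrough.dir L) = 0 := by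
      unfold pv
      rw [lin_smul_left]
      exact mul_eq_zero_of_right _ h2
    rw [h3, zero_div] at hw
    exact w.2.1 hw.symm
  · have h3 : lin (pv k) (LineThrough.dir L) - lin (pu k) (LineThrough.dir L) = 0 := by
      have h4 : lin (pv k - pu k) (LineThrough.dir L) = 0 := by
        have h5 : pv k - pu k = κ' • lvec (j8 (inc8 k 1)) := hrel
        rw [h5, lin_smul_left]
        exact mul_eq_zero_of_right _ h2
      rw [← h4]
      simp only [lin, Fin.sum_univ_three, Pi.sub_apply]
      ring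
    rw [sub_eq_zero.1 h3, div_self hU] at hw
    exact w.2.2 hw.symm
  · exact hU h2

/-- The incidence matrix is invertible. -/
lemma inv8 (m : Fin 8 → ℚ) (h : ∀ k, m (inc8 k 0) + m (inc8 k 1) + m (inc8 k 2) = 0) : m = 0 := by
  have h0 := h 0
  have h1 := h 1
  have h2 := h 2
  have h3 := h 3
  have h4 := h 4
  have h5 := h 5
  have h6 := h 6
  have h7 := h 7
  simp only [inc8, Matrix.cons_val_zero, Matrix.cons_val_one, Matrix.cons_val] at h0 h1 h2 h3 h4 h5 h6 h7
  funext j
  fin_cases j <;> simp only [Fin.zero_eta, Fin.mk_one, Fin.reduceFinMk, Pi.zero_apply] <;> linarith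

end

end Pool.Agent.Lib.MP_ee7b66_ag
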