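import Mathlib
import Pool.Agent.Lib.MP_ee7b66_ag.G.Pan

/-!
# The tube coordinate near the three ends
-/

open scoped LinearAlgebra.Projectivization
open Pool.Agent.Lib.MP_8481ed_ag TopologicalSpace MvPolynomial Topology
open Pool.Agent.Lib.MP_ee7b66_ag.Top (C2 Sb Rb Pants loc)

namespace Pool.Agent.Lib.MP_ee7b66_ag

noncomputable section

lemma near8_crd_exc {r : ℕ} {p : Fin r → Plane ℂ} (D : LineData p) (i : Fin 3) (l : Fin r)
    (e : l = D.k i) (L : LineThrough (p l)) :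
    D.crd (.exc l L) 1 = (lin (D.c 2) (LineThrough.dir L) / lin (D.tf i) (LineThrough.dir L)) /
      ∏ i', if i' = i then 1 else D.t i - D.t i' := by
  subst e
  rw [D.crd_exc i L]
  rfl

lemma near8_dom_exc {r : ℕ} {p : Fin r → Plane ℂ} (D : LineData p) (i : Fin 3) (l : Fin r)
    (e : l = D.k i) (L : LineThrough (p l)) (h : lin (D.tf i) (LineThrough.dir L) ≠ 0) :
    D.dom (.exc l L) := by
  subst e
  exact (D.dom_exc i L).2 h

lemma near8_lin_tf_rep {r : ℕ} {p : Fin r → Plane ℂ} (D : LineData p) (i : Fin 3) (l : Fin r)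
    (e : l = D.k i) : lin (D.tf i) (p l).rep = 0 := by
  subst e
  exact D.lin_tf_rep i

lemma near8_lin_comb (x y : ℂ) (a b v : Fin 3 → ℂ) :
    lin (x • a + y • b) v = x * lin a v + y * lin b v := by
  simp only [lin, Fin.sum_univ_three, Pi.add_apply, Pi.smul_apply, smul_eq_mul]
  ring

/-- A linear form vanishing at the `k`-th point is a combination of `pu k` and `pv k`. -/
lemma near8_exists_comb (k : Fin 8) (T : Fin 3 → ℂ) (hT : lin T (hp (k8 k)).rep = 0) :
    ∃ x y : ℂ, T = x • pu k + y • pv k := by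
  have hdet : Matrix.det (Matrix.of ![lM, pu k, pv k]) ≠ 0 := det_frP k
  have hu : IsUnit (Matrix.det (Matrix.of ![lM, pu k, pv k])) := isUnit_iff_ne_zero.2 hdet
  obtain ⟨c, hc⟩ : ∃ c : Fin 3 → ℂ, Matrix.vecMul c (Matrix.of ![lM, pu k, pv k]) = T := by
    refine ⟨Matrix.vecMul T (Matrix.of ![lM, pu k, pv k])⁻¹, ?_⟩
    rw [Matrix.vecMul_vecMul, Matrix.nonsing_inv_mul _ hu, Matrix.vecMul_one]
  have hT' : T = c 0 • lM + c 1 • pu k + c 2 • pv k := by
    rw [← hc]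
    ext n
    simp [Matrix.vecMul, dotProduct, Fin.sum_univ_three, Matrix.of_apply]
  have h0 : lin T (hp (k8 k)).rep = c 0 * lin lM (hp (k8 k)).rep +
      c 1 * lin (pu k) (hp (k8 k)).rep + c 2 * lin (pv k) (hp (k8 k)).rep := by
    rw [hT']
    simp only [lin, Fin.sum_univ_three, Pi.add_apply, Pi.smul_apply, smul_eq_mul]
    ring
  rw [hT, lin_pu_rep, lin_pv_rep, mul_zero, mul_zero, add_zero, add_zero] at h0
  have hM : lin lM (hp (k8 k)).rep ≠ 0 := (lin_lM_rep_hp (k8 k)).2 ⟨k, rfl⟩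
  have hc0 : c 0 = 0 := by
    rcases mul_eq_zero.1 h0.symm with h | h
    · exact h
    · exact absurd h hM
  refine ⟨c 1, c 2, ?_⟩
  rw [hc0, zero_smul, zero_add] at hT'
  exact hT'

/-- The determinant of `(M, x U + y V, α U + β V)`. -/
lemma near8_det (k : Fin 8) (x y α β : ℂ)
    (h : Matrix.det (Matrix.of ![lM, x • pu k + y • pv k, α • pu k + β • pv k]) ≠ 0) :
    x * β - y * α ≠ 0 := by
  intro h0
  apply h
  have : Matrix.det (Matrix.of ![lM, x • pu k + y • pv k, α • pu k + β • pv k]) =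
      (x * β - y * α) * Matrix.det (Matrix.of ![lM, pu k, pv k]) := by
    simp only [det_eq_det3, det3, Pi.add_apply, Pi.smul_apply, smul_eq_mul]
    ring
  rw [this, h0, zero_mul]

/-- The analytic part: `γ / ((a + b v) P)`. -/
lemma near8_ball (a b : ℂ) (ha : a ≠ 0) : ∃ δ : ℝ, 0 < δ ∧ δ ≤ 1 ∧
    ∀ v ∈ Metric.ball (0 : ℂ) δ, a + b * v ≠ 0 := by
  have ha' : 0 < ‖a‖ := norm_pos_iff.2 ha
  have hb' : 0 < ‖b‖ + 1 := by positivity
  refine ⟨min 1 (‖a‖ / (‖b‖ + 1)), lt_min one_pos (div_pos ha' hb'), min_le_left _ _, ?_⟩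
  intro v hv h0
  rw [mem_ball_zero_iff] at hv
  have h1 : ‖v‖ < ‖a‖ / (‖b‖ + 1) := lt_of_lt_of_le hv (min_le_right _ _)
  have h2 : ‖v‖ * (‖b‖ + 1) < ‖a‖ := (lt_div_iff₀ hb').1 h1
  have h3 : a = -(b * v) := by linear_combination h0
  have h4 : ‖a‖ = ‖b‖ * ‖v‖ := by rw [h3, norm_neg, norm_mul]
  nlinarith [norm_nonneg v, norm_nonneg b]

/-- The assembly: it is enough to have the formula with `a + b v` and `γ`. -/
lemma near8_core (k : Fin 8) (i : Fin 3) (i₀ : Fin 3) (hk : k = kk (inc8 k i) i₀)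
    (x y α β : ℂ) (hT : (ld (inc8 k i)).tf i₀ = x • pu k + y • pv k)
    (hB : lvec (j8 (inc8 k i)) = α • pu k + β • pv k)
    (a b γ : ℂ) (ha : a ≠ 0) (hγ : γ ≠ 0)
    (hab : ∀ v : ℂ, v ≠ 0 → a + b * v ≠ 0 → v ≠ 1 → v ≠ -1 → loc i v ∈ Pants ∧
      x + y * loc i v ≠ 0 ∧ (α + β * loc i v) / (x + y * loc i v) = v * (γ / (a + b * v))) :
    ∃ (δ : ℝ) (φ : ℂ → ℂ), 0 < δ ∧
    ContinuousOn φ (Metric.ball 0 δ) ∧ (∀ v ∈ Metric.ball (0 : ℂ) δ, φ v ≠ 0) ∧
      ∀ v, v ≠ 0 → v ∈ Metric.ball (0 : ℂ) δ → ∃ h : loc i v ∈ Pants,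
        ∀ L : LineThrough (hp (k8 k)), lin (pu k) (LineThrough.dir L) ≠ 0 →
          lin (pv k) (LineThrough.dir L) / lin (pu k) (LineThrough.dir L) = loc i v →
            (ld (inc8 k i)).dom (.exc (k8 k) L) ∧
              (ld (inc8 k i)).crd (.exc (k8 k) L) 1 = v * φ v := by
  obtain ⟨δ, hδ, hδ1, hne⟩ := near8_ball a b ha
  set P : ℂ := ∏ i', if i' = i₀ then 1 else (ld (inc8 k i)).t i₀ - (ld (inc8 k i)).t i' with hP
  have hP0 : P ≠ 0 := by
    rw [hP, Finset.prod_ne_zero_iff]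
    intro i' _
    split_ifs with h
    · exact one_ne_zero
    · intro h0
      exact h ((ld (inc8 k i)).t_inj (sub_eq_zero.1 h0)).symm
  refine ⟨δ, fun v => γ / (a + b * v) / P, hδ, ?_, ?_, ?_⟩
  · refine ContinuousOn.div_const (ContinuousOn.div continuousOn_const ?_ hne) P
    fun_prop
  · intro v hv
    exact div_ne_zero (div_ne_zero hγ (hne v hv)) hP0
  · intro v hv0 hv
    have hv1 : ‖v‖ < 1 := lt_of_lt_of_le (mem_ball_zero_iff.1 hv) hδ1
    have hv2 : v ≠ 1 := by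
      rintro rfl
      simp at hv1
    have hv3 : v ≠ -1 := by
      rintro rfl
      simp at hv1
    obtain ⟨h1, h2, h3⟩ := hab v hv0 (hne v hv) hv2 hv3
    refine ⟨h1, ?_⟩
    intro L hU hw
    have hk' : k8 k = (ld (inc8 k i)).k i₀ := by
      rw [ld_k, ← hk]
    have hV : lin (pv k) (LineThrough.dir L) =
        loc i v * lin (pu k) (LineThrough.dir L) := by
      rw [← hw, div_mul_cancel₀ _ hU]
    have hTd : lin ((ld (inc8 k i)).tf i₀) (LineThrough.dir L) =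
        lin (pu k) (LineThrough.dir L) * (x + y * loc i v) := by
      rw [hT, near8_lin_comb, hV]
      ring
    have hBd : lin (lvec (j8 (inc8 k i))) (LineThrough.dir L) =
        lin (pu k) (LineThrough.dir L) * (α + β * loc i v) := by
      rw [hB, near8_lin_comb, hV]
      ring
    refine ⟨near8_dom_exc _ i₀ _ hk' L ?_, ?_⟩
    · rw [hTd]
      exact mul_ne_zero hU h2
    · rw [near8_crd_exc _ i₀ _ hk' L, ld_c2, hTd, hBd, mul_div_mul_left _ _ hU, h3, ← hP]
      ring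

/-- The coordinate `s` of the tube around the line `inc8 k i` at the points of the exceptional
curve near the end `i`: it is `v φ(v)` with `φ` continuous and different from zero near `0`.
With `k = kk j i₀`, `j = inc8 k i`: on `L` one has `s = (B(dir) / T'(dir)) / ∏_{i' ≠ i₀} (t i₀ - t i')`
(`crd_exc`) with `B = lvec (j8 j)` and `T' = tf i₀ = x U + y V + z M` where the `z M` part vanishes
because `T'` vanishes at the point: `T' = x U + y V`. For `i = 0`: `B = κ V`,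
`s = κ w / (x + y w)` up to a constant, `w = v`, `x ≠ 0`. For `i = 1`: `B = κ (V - U)`, `w = 1 + v`,
`s = κ v / (x + y (1 + v))`, `x + y ≠ 0`. For `i = 2`: `B = κ U`, `w = 1 / v`, `s = κ v / (x v + y)`,
`y ≠ 0`. -/
theorem near8 (k : Fin 8) (i : Fin 3) : ∃ (δ : ℝ) (φ : ℂ → ℂ), 0 < δ ∧
    ContinuousOn φ (Metric.ball 0 δ) ∧ (∀ v ∈ Metric.ball (0 : ℂ) δ, φ v ≠ 0) ∧
      ∀ v, v ≠ 0 → v ∈ Metric.ball (0 : ℂ) δ → ∃ h : loc i v ∈ Pants,
        ∀ L : LineThrough (hp (k8 k)), lin (pu k) (LineThrough.dir L) ≠ 0 →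
          lin (pv k) (LineThrough.dir L) / lin (pu k) (LineThrough.dir L) = loc i v →
            (ld (inc8 k i)).dom (.exc (k8 k) L) ∧
              (ld (inc8 k i)).crd (.exc (k8 k) L) 1 = v * φ v := by
  obtain ⟨κ', hκ, hκ', hrel⟩ := (exists_pv k).choose_spec
  set κ : ℂ := (exists_pv k).choose with hκdef
  have hpv : pv k = κ • lvec (j8 (inc8 k 0)) := rfl
  have hpu : pu k = lvec (j8 (inc8 k 2)) := rfl
  obtain ⟨i₀, hk⟩ := exists_kk k i
  have hk' : k8 k = (ld (inc8 k i)).k i₀ := by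
    rw [ld_k, ← hk]
  obtain ⟨x, y, hT⟩ := near8_exists_comb k ((ld (inc8 k i)).tf i₀)
    (near8_lin_tf_rep _ i₀ _ hk')
  have hdet : ∀ α β : ℂ, lvec (j8 (inc8 k i)) = α • pu k + β • pv k → x * β - y * α ≠ 0 := by
    intro α β hB
    apply near8_det k x y α β
    rw [← hT, ← hB]
    exact (ld (inc8 k i)).det_frameAt i₀
  fin_cases i
  · have hB : lvec (j8 (inc8 k 0)) = (0 : ℂ) • pu k + κ⁻¹ • pv k := by
      rw [hpv, zero_smul, zero_add, smul_smul, inv_mul_cancel₀ hκ, one_smul]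
    have hd := hdet 0 κ⁻¹ hB
    have hx : x ≠ 0 := by
      rintro rfl
      apply hd
      ring
    refine near8_core k 0 i₀ hk x y 0 κ⁻¹ hT hB x y κ⁻¹ hx (inv_ne_zero hκ) ?_
    intro v hv hv0 hv1 hv2
    have hl : loc 0 v = v := rfl
    rw [hl]
    refine ⟨⟨hv, hv1⟩, hv0, ?_⟩
    rw [zero_add]
    ring
  · have hB : lvec (j8 (inc8 k 1)) = (-κ'⁻¹) • pu k + κ'⁻¹ • pv k := by
      have h1 : pv k - pu k = κ' • lvec (j8 (inc8 k 1)) := hrel
      have h2 : κ'⁻¹ • (pv k - pu k) = lvec (j8 (inc8 k 1)) := by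
        rw [h1, smul_smul, inv_mul_cancel₀ hκ', one_smul]
      rw [← h2, smul_sub, neg_smul]
      abel
    have hd := hdet (-κ'⁻¹) κ'⁻¹ hB
    have hx : x + y ≠ 0 := by
      intro h0
      apply hd
      linear_combination κ'⁻¹ * h0
    refine near8_core k 1 i₀ hk x y (-κ'⁻¹) κ'⁻¹ hT hB (x + y) y κ'⁻¹ hx (inv_ne_zero hκ') ?_
    intro v hv hv0 hv1 hv2
    have hl : loc 1 v = 1 + v := rfl
    rw [hl]
    refine ⟨⟨?_, ?_⟩, ?_, ?_⟩
    · intro h
      apply hv2
      linear_combination h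
    · intro h
      apply hv
      linear_combination h
    · intro h
      apply hv0
      linear_combination h
    · have e1 : x + y * (1 + v) = x + y + y * v := by ring
      rw [e1]
      ring
  · have hB : lvec (j8 (inc8 k 2)) = (1 : ℂ) • pu k + (0 : ℂ) • pv k := by
      rw [hpu, one_smul, zero_smul, add_zero]
    have hd := hdet 1 0 hB
    have hx : y ≠ 0 := by
      rintro rfl
      apply hd
      ring
    refine near8_core k 2 i₀ hk x y 1 0 hT hB y x 1 hx one_ne_zero ?_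
    intro v hv hv0 hv1 hv2
    have hl : loc 2 v = v⁻¹ := rfl
    rw [hl]
    have e1 : x + y * v⁻¹ = (y + x * v) / v := by
      field_simp
      ring
    refine ⟨⟨inv_ne_zero hv, ?_⟩, ?_, ?_⟩
    · intro h
      exact hv1 (inv_eq_one.1 h)
    · rw [e1]
      exact div_ne_zero hv0 hv
    · rw [e1, zero_mul, add_zero, one_div_div]
      ring

end

end Pool.Agent.Lib.MP_ee7b66_ag
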