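import Mathlib
import Pool.Agent.Lib.MP_ee7b66_ag.G.Co
import Pool.Agent.Lib.MP_ee7b66_ag.Mg.G001

/-!
# The section of the blow-down
-/

open scoped LinearAlgebra.Projectivization
open Pool.Agent.Lib.MP_8481ed_ag TopologicalSpace MvPolynomial Topology
open Pool.Agent.Lib.MP_ee7b66_ag.Top (C2 Sb Rb Pants loc)

namespace Pool.Agent.Lib.MP_ee7b66_ag

noncomputable section

/-- The inverse of the blow-down outside the eight points. -/
def secFun (z : {z : C2 // ∀ k, z ≠ pt8 k}) : YT :=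
  ⟨.away (planePt z.1) (planePt_ne z.2), lin_rep_planePt z.1⟩

lemma pi_secFun (z : {z : C2 // ∀ k, z ≠ pt8 k}) : piFun (secFun z) = z.1 :=
  aff_rep_planePt z.1

lemma sec_piFun (x : YT) (h : ∀ k, piFun x ≠ pt8 k) : secFun ⟨piFun x, h⟩ = x := by
  obtain ⟨x, hx⟩ := x
  cases x with
  | away q hq =>
    apply Subtype.ext
    change BlowUp.away (planePt (aff q.rep)) _ = BlowUp.away q hq
    have h1 : planePt (aff q.rep) = q := by
      conv_rhs => rw [← q.mk_rep]
      unfold planePt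
      rw [Projectivization.mk_eq_mk_iff']
      exact ⟨(lin lM q.rep)⁻¹, (vecAff_aff hx).symm⟩
    congr 1
  | exc i L =>
    obtain ⟨k, rfl⟩ := (lin_lM_rep_hp i).1 hx
    exact (h k (aff_rep_hp k)).elim

lemma det_F₀ : Matrix.det (Matrix.of ![lM, lX, lZ]) ≠ 0 := by
  rw [det_eq_det3]
  simp [det3, lM, lX, lZ]

/-- The frame `(M, X₀, X₂)`. -/
def F₀ : Frame where
  c := Matrix.of ![lM, lX, lZ]
  det_ne := det_F₀

/-- Locally `secFun` is the inverse of an away chart for the frame `F₀` (`exists_kills`,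
`LChart.exists_isOpenEmbedding`). -/
lemma continuous_secFun : Continuous secFun := by
  rw [continuous_iff_continuousAt]
  intro z₀
  obtain ⟨n, h, hh, hk, hq0⟩ := exists_kills (p := hp) (F₀.c 0) (planePt z₀.1) (planePt_ne z₀.2)
  let C : LChart hp := F₀.awayChart h hh hk
  have hdom : ∀ y ∈ C.dom, lin lM y.vec ≠ 0 := by
    intro y hy
    cases y with
    | away q hq => exact hy.1
    | exc i L => exact hy.elim
  obtain ⟨Φ, hΦ, hΦ1, -⟩ := C.exists_isOpenEmbedding hdom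
  -- on `{g ≠ 0}` the section is `Φ`
  have hsec : ∀ (z : {z : C2 // ∀ k, z ≠ pt8 k}) (hz : eval z.1 C.g ≠ 0),
      secFun z = Φ ⟨z.1, hz⟩ := by
    intro z hz
    obtain ⟨h1, h2⟩ := hΦ1 ⟨z.1, hz⟩
    have h3 : piFun (Φ ⟨z.1, hz⟩) = z.1 := by
      refine Eq.trans ?_ h2
      change aff (Aff.pt hp (Φ ⟨z.1, hz⟩)).vec = F₀.awayCrd (Aff.pt hp (Φ ⟨z.1, hz⟩))
      generalize Aff.pt hp (Φ ⟨z.1, hz⟩) = y at h1
      cases y with
      | away q hq => rfl
      | exc i L => exact h1.elim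
    have h4 : ∀ k, piFun (Φ ⟨z.1, hz⟩) ≠ pt8 k := by
      rw [h3]
      exact z.2
    rw [← sec_piFun (Φ ⟨z.1, hz⟩) h4]
    congr 1
    exact Subtype.ext h3.symm
  let U : Set {z : C2 // ∀ k, z ≠ pt8 k} := {z | eval z.1 C.g ≠ 0}
  have hU : IsOpen U := C.isOpen_im.preimage continuous_subtype_val
  have hz₀ : z₀ ∈ U := by
    have h1 : (.away (planePt z₀.1) (planePt_ne z₀.2) : BlowUp hp) ∈ C.dom :=
      ⟨lin_rep_planePt z₀.1, hq0⟩
    have h2 := C.g_ne _ h1
    have h3 : C.crd (.away (planePt z₀.1) (planePt_ne z₀.2)) = z₀.1 := aff_rep_planePt z₀.1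
    rw [h3] at h2
    exact h2
  have hcont : ContinuousOn secFun U := by
    rw [continuousOn_iff_continuous_domRestrict]
    have h1 : U.domRestrict secFun = fun z => Φ ⟨z.1.1, z.2⟩ := by
      funext z
      exact hsec z.1 z.2
    rw [h1]
    exact hΦ.continuous.comp (by fun_prop)
  exact hcont.continuousAt (hU.mem_nhds hz₀)

end

end Pool.Agent.Lib.MP_ee7b66_ag
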