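import Mathlib
import Pool.Agent.Lib.MP_ee7b66_ag.G.Pan
import Pool.Agent.Lib.MP_ee7b66_ag.Mg.G001

/-!
# The exceptional curves without three points
-/

open scoped LinearAlgebra.Projectivization
open Pool.Agent.Lib.MP_8481ed_ag TopologicalSpace MvPolynomial Topology
open Pool.Agent.Lib.MP_ee7b66_ag.Top (C2 Sb Rb Pants loc)

namespace Pool.Agent.Lib.MP_ee7b66_ag

noncomputable section

private lemma th_lin_comb (c v w : Fin 3 → ℂ) (α β : ℂ) :
    lin c (α • v + β • w) = α * lin c v + β * lin c w := by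
  unfold lin
  rw [Finset.mul_sum, Finset.mul_sum, ← Finset.sum_add_distrib]
  refine Finset.sum_congr rfl fun i _ => ?_
  rw [Pi.add_apply, Pi.smul_apply, Pi.smul_apply, smul_eq_mul, smul_eq_mul]
  ring

/-- The equation of the chart does not vanish at the points of the exceptional curve. -/
private lemma th_g_ne (k : Fin 8) {n : ℕ} {h : CoordRing ℂ} (hh : h.IsHomogeneous n)
    (hk : KillsOther hp (k8 k) lM h) (w : ℂ) :
    eval ![0, w] ((frP k).excPoly h) ≠ 0 := by
  have h1 : eval ![0, w] ((frP k).excPoly h) = eval ![0, 0] ((frP k).dh h) := by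
    unfold FrameAt.excPoly
    rw [AlgHom.comp_apply]
    have h2 : ∀ P : MvPolynomial (Fin 2) ℂ, eval ![0, w] (aeval ![(MvPolynomial.X 0 :
        MvPolynomial (Fin 2) ℂ), MvPolynomial.X 0 * MvPolynomial.X 1] P) = eval ![0, 0] P := by
      intro P
      induction P using MvPolynomial.induction_on with
      | C a => simp
      | add p q hp hq => rw [map_add, map_add, hp, hq, map_add]
      | mul_X p i hp =>
        rw [map_mul, map_mul, hp, map_mul, aeval_X]
        fin_cases i <;> simp
    exact h2 _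
  have hM : lin lM (hp (k8 k)).rep ≠ 0 := (frP k).hM
  have h3 := (frP k).eval_dh hh (hp (k8 k)).rep hM
  have h4 : (![lin ((frP k).c 1) (hp (k8 k)).rep / lin ((frP k).c 0) (hp (k8 k)).rep,
      lin ((frP k).c 2) (hp (k8 k)).rep / lin ((frP k).c 0) (hp (k8 k)).rep] : Fin 2 → ℂ) =
      ![0, 0] := by
    rw [(frP k).hU, (frP k).hV, zero_div]
  rw [h4] at h3
  rw [h1, h3]
  exact div_ne_zero hk.1 (pow_ne_zero _ hM)

/-- The map `w ↦` the point of the exceptional curve with slope `w`, as a continuous map: the chart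
`excChart` of `frP k` for `h` from `exists_killsOther`, restricted to `α = 0`. -/
theorem exists_th (k : Fin 8) : ∃ Θ : C(Pants, YT), ∀ w : Pants, ∃ L : LineThrough (hp (k8 k)),
    Aff.pt hp (Θ w) = .exc (k8 k) L ∧ lin (pu k) (LineThrough.dir L) ≠ 0 ∧
      lin (pv k) (LineThrough.dir L) / lin (pu k) (LineThrough.dir L) = w.1 := by
  obtain ⟨n, h, hh, hk⟩ := exists_killsOther hp_injective (k8 k) lM
  have hMrep : lin lM (hp (k8 k)).rep ≠ 0 := (frP k).hM
  obtain ⟨Φ, hΦ, hcrd, -⟩ := ((frP k).excChart h hh hk).exists_isOpenEmbedding (M := lM) (by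
    intro y hy
    have hy' : (frP k).excDom h y := hy
    cases y with
    | away q hq => exact hy'.1
    | exc i L =>
      have h1 : i = k8 k := hy'.1
      subst h1
      exact hMrep)
  have hcont : Continuous fun w : Pants =>
      (⟨![0, w.1], th_g_ne k hh hk w.1⟩ :
        {z : Fin 2 → ℂ // eval z ((frP k).excChart h hh hk).g ≠ 0}) := by
    refine Continuous.subtype_mk ?_ _
    refine continuous_pi fun i => ?_
    fin_cases i
    · exact continuous_const
    · exact continuous_subtype_val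
  refine ⟨⟨fun w => Φ ⟨![0, w.1], th_g_ne k hh hk w.1⟩, hΦ.continuous.comp hcont⟩, fun w => ?_⟩
  obtain ⟨hdom, hc⟩ := hcrd ⟨![0, w.1], th_g_ne k hh hk w.1⟩
  change ∃ L : LineThrough (hp (k8 k)),
    Aff.pt hp (Φ ⟨![0, w.1], th_g_ne k hh hk w.1⟩) = .exc (k8 k) L ∧ _
  generalize Aff.pt hp (Φ ⟨![0, w.1], th_g_ne k hh hk w.1⟩) = y at hdom hc ⊢
  have hy' : (frP k).excDom h y := hdom
  have hc' : (frP k).excCrd y = ![0, w.1] := hc
  cases y with
  | away q hq =>
    exfalso
    have h0 := congrFun hc' 0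
    have h1 : lin ((frP k).c 1) q.rep / lin ((frP k).c 0) q.rep = 0 := h0
    exact div_ne_zero hy'.2.1 hy'.1 h1
  | exc i L =>
    have hi : i = k8 k := hy'.1
    subst hi
    refine ⟨L, rfl, ?_, ?_⟩
    · obtain ⟨w', hw', hne⟩ := hy'.2
      intro h0
      obtain ⟨α, β, rfl⟩ := L.exists_coord w' hw'
      apply hne
      have h1 : lin ((frP k).c 1) (hp (k8 k)).rep = 0 := (frP k).hU
      have h2 : lin ((frP k).c 1) (LineThrough.dir L) = 0 := h0
      rw [th_lin_comb, h1, h2, mul_zero, mul_zero, add_zero]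
    · have h0 := congrFun hc' 1
      exact h0

end

end Pool.Agent.Lib.MP_ee7b66_ag
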