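import Mathlib
import Pool.Agent.Lib.MP_ee7b66_ag.G.Ld

/-!
# Estimates in the tubes
-/

open scoped LinearAlgebra.Projectivization
open Pool.Agent.Lib.MP_8481ed_ag TopologicalSpace MvPolynomial Topology
open Pool.Agent.Lib.MP_ee7b66_ag.Top (C2 Sb Rb Pants loc)

namespace Pool.Agent.Lib.MP_ee7b66_ag

noncomputable section

/-- The bound for the product of the differences. -/
lemma tubeB_prod_le (t : ℂ) (ti : Fin 3 → ℂ) (P : Fin 3 → ℂ)
    (hP : ∀ i, P i = 1 ∨ P i = t - ti i) :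
    ‖∏ i, P i‖ ≤ (1 + ‖t‖) ^ 3 * ∏ i, (1 + ‖ti i‖) := by
  have h1 : ∀ i, ‖P i‖ ≤ (1 + ‖t‖) * (1 + ‖ti i‖) := by
    intro i
    have h2 := norm_nonneg t
    have h3 := norm_nonneg (ti i)
    rcases hP i with h | h
    · rw [h, norm_one]
      nlinarith [mul_nonneg h2 h3]
    · rw [h]
      have h4 := norm_sub_le t (ti i)
      nlinarith [mul_nonneg h2 h3]
  rw [norm_prod]
  calc ∏ i, ‖P i‖ ≤ ∏ i, ((1 + ‖t‖) * (1 + ‖ti i‖)) :=
        Finset.prod_le_prod (fun i _ => norm_nonneg _) fun i _ => h1 i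
    _ = (1 + ‖t‖) ^ 3 * ∏ i, (1 + ‖ti i‖) := by
        rw [Finset.prod_mul_distrib, Finset.prod_const, Finset.card_univ, Fintype.card_fin]

/-- The final estimate. -/
lemma tubeB_final {δ K : ℝ} {b a s P t : ℂ} (e : b = a * (s * P))
    (hP : ‖P‖ ≤ (1 + ‖t‖) ^ 3 * K) (hK : 0 ≤ K) (hs : ‖s‖ * (1 + ‖t‖) ^ 3 < δ) :
    ‖b‖ ≤ δ * K * ‖a‖ := by
  rw [e, norm_mul, norm_mul]
  have h1 : ‖s‖ * ‖P‖ ≤ δ * K := by
    calc ‖s‖ * ‖P‖ ≤ ‖s‖ * ((1 + ‖t‖) ^ 3 * K) := mul_le_mul_of_nonneg_left hP (norm_nonneg _)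
      _ = (‖s‖ * (1 + ‖t‖) ^ 3) * K := by ring
      _ ≤ δ * K := mul_le_mul_of_nonneg_right hs.le hK
  calc ‖a‖ * (‖s‖ * ‖P‖) ≤ ‖a‖ * (δ * K) := mul_le_mul_of_nonneg_left h1 (norm_nonneg _)
    _ = δ * K * ‖a‖ := by ring

lemma tubeB_lin_sub (c v w : Fin 3 → ℂ) : lin c (v - w) = lin c v - lin c w := by
  simp only [lin, Fin.sum_univ_three, Pi.sub_apply]
  ring

/-- The relation `B / M = s ∏ (t - t i)` at a point outside the exceptional curves. -/
lemma tubeB_away (j : Fin 8) (q : Plane ℂ) (hq : ∀ i, q ≠ hp i)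
    (h : (ld j).dom (.away q hq)) :
    lin (lvec (j8 j)) q.rep / lin lM q.rep = (ld j).crd (.away q hq) 1 *
      ∏ i, ((ld j).crd (.away q hq) 0 - (ld j).t i) := by
  have hM : lin lM q.rep ≠ 0 := h.1
  have ht : ∀ i, lin ((ld j).tf i) q.rep ≠ 0 := h.2.1
  have e0 : (ld j).crd (.away q hq) 0 = lin (tcoef j) q.rep / lin lM q.rep := rfl
  have e1 : (ld j).crd (.away q hq) 1 = (lin (lvec (j8 j)) q.rep / lin lM q.rep) /
      ∏ i, (lin ((ld j).tf i) q.rep / lin lM q.rep) := rfl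
  have e2 : ∀ i, lin ((ld j).tf i) q.rep / lin lM q.rep =
      (ld j).crd (.away q hq) 0 - (ld j).t i := by
    intro i
    rw [e0]
    have h3 : lin ((ld j).tf i) q.rep = lin (tcoef j) q.rep - (ld j).t i * lin lM q.rep :=
      (ld j).lin_tf i q.rep
    rw [h3, sub_div, mul_div_assoc, div_self hM, mul_one]
  rw [e1]
  have e3 : ∏ i, (lin ((ld j).tf i) q.rep / lin lM q.rep) =
      ∏ i, ((ld j).crd (.away q hq) 0 - (ld j).t i) := Finset.prod_congr rfl fun i _ => e2 i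
  rw [← e3, div_mul_cancel₀]
  exact Finset.prod_ne_zero_iff.2 fun i _ => div_ne_zero (ht i) hM

/-- In the tube the transversal coordinate is small: `|s ∏ (t - t i)| ≤ δ C`. -/
lemma exists_const_away (j : Fin 8) : ∃ C : ℝ, 0 < C ∧ ∀ (δ : ℝ) (q : Plane ℂ) (hq : ∀ i, q ≠ hp i),
    Tube j δ (.away q hq) → ‖lin (lvec (j8 j)) q.rep / lin lM q.rep‖ ≤ δ * C := by
  refine ⟨∏ i, (1 + ‖(ld j).t i‖), Finset.prod_pos fun i _ => by positivity, ?_⟩
  intro δ q hq hT
  obtain ⟨hdom, hs⟩ := hT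
  have h1 := tubeB_prod_le ((ld j).crd (.away q hq) 0) (ld j).t
    (fun i => (ld j).crd (.away q hq) 0 - (ld j).t i) fun i => Or.inr rfl
  have h2 := tubeB_final (δ := δ) (a := 1) (s := (ld j).crd (.away q hq) 1)
    (b := lin (lvec (j8 j)) q.rep / lin lM q.rep)
    (by rw [one_mul]; exact tubeB_away j q hq hdom) h1
    (Finset.prod_nonneg fun i _ => by positivity) hs
  rwa [norm_one, mul_one] at h2

/-- In the tube the transversal component of the direction is small. For `y` outside the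
exceptional curves: `B(d) = s ∏ (t - t i)`, `T(d) = t - t i₀` with `k = kk j i₀`; for
`y = exc (k8 k) L`: `B(d) / T(d) = s ∏_{i ≠ i₀} (t i₀ - t i)`. -/
lemma exists_const_dir (j : Fin 8) : ∃ C : ℝ, 0 < C ∧ ∀ (δ : ℝ) (i₀ : Fin 3) (d : Fin 3 → ℂ)
    (y : BlowUp hp), Tube j δ y → IsDir (kk j i₀) d y →
      ‖lin (lvec (j8 j)) d‖ ≤ δ * C * ‖lin (tcoef j) d‖ := by
  refine ⟨∏ i, (1 + ‖(ld j).t i‖), Finset.prod_pos fun i _ => by positivity, ?_⟩
  intro δ i₀ d y hT hd
  obtain ⟨hdom, hs⟩ := hT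
  cases y with
  | away q hq =>
    obtain ⟨hM, rfl⟩ := hd
    have hMp := lin_lM_pvec (kk j i₀)
    have hBp : lin (lvec (j8 j)) (pvec (k8 (kk j i₀))) = 0 :=
      (lin_lvec_pvec_iff j (kk j i₀)).2 ⟨i₀, rfl⟩
    have ep : vecAff (pt8 (kk j i₀)) =
        (lin lM (pvec (k8 (kk j i₀))))⁻¹ • pvec (k8 (kk j i₀)) := vecAff_aff hMp
    have eq1 : vecAff (aff q.rep) = (lin lM q.rep)⁻¹ • q.rep := vecAff_aff hM
    have eB : lin (lvec (j8 j)) (vecAff (aff q.rep) - vecAff (pt8 (kk j i₀))) =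
        lin (lvec (j8 j)) q.rep / lin lM q.rep := by
      rw [tubeB_lin_sub, ep, eq1, lin_smul, lin_smul, hBp]
      ring
    have eT : lin (tcoef j) (vecAff (aff q.rep) - vecAff (pt8 (kk j i₀))) =
        (ld j).crd (.away q hq) 0 - (ld j).t i₀ := by
      have e0 : (ld j).crd (.away q hq) 0 = lin (tcoef j) q.rep / lin lM q.rep := rfl
      have e1 : (ld j).t i₀ = lin (tcoef j) (pvec (k8 (kk j i₀))) /
        lin lM (pvec (k8 (kk j i₀))) := rfl
      rw [tubeB_lin_sub, ep, eq1, lin_smul, lin_smul, e0, e1]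
      ring
    have h1 := tubeB_prod_le ((ld j).crd (.away q hq) 0) (ld j).t
      (fun i => if i = i₀ then 1 else (ld j).crd (.away q hq) 0 - (ld j).t i) (by
        intro i
        by_cases h : i = i₀
        · left
          simp [h]
        · right
          simp [h])
    refine tubeB_final (s := (ld j).crd (.away q hq) 1) ?_ h1
      (Finset.prod_nonneg fun i _ => by positivity) hs
    rw [eB, eT, tubeB_away j q hq hdom]
    have e4 : ∏ i, ((ld j).crd (.away q hq) 0 - (ld j).t i) =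
        ((ld j).crd (.away q hq) 0 - (ld j).t i₀) *
        ∏ i, (if i = i₀ then 1 else (ld j).crd (.away q hq) 0 - (ld j).t i) := by
      rw [← Finset.mul_prod_erase Finset.univ _ (Finset.mem_univ i₀),
        ← Finset.mul_prod_erase Finset.univ
          (fun i => if i = i₀ then 1 else (ld j).crd (.away q hq) 0 - (ld j).t i)
          (Finset.mem_univ i₀)]
      rw [if_pos rfl, one_mul]
      congr 1
      refine Finset.prod_congr rfl fun i hi => ?_
      rw [if_neg (Finset.ne_of_mem_erase hi)]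
    rw [e4]
    ring
  | exc l L =>
    obtain ⟨rfl, hdL, hMd⟩ := hd
    have hcrd := (ld j).crd_exc i₀ L
    have hdir : lin ((ld j).tf i₀) (LineThrough.dir L) ≠ 0 := ((ld j).dom_exc i₀ L).1 hdom
    have e0 : (ld j).crd (.exc (k8 (kk j i₀)) L) 0 = (ld j).t i₀ := congrFun hcrd 0
    have e1 : (ld j).crd (.exc (k8 (kk j i₀)) L) 1 =
        (lin (lvec (j8 j)) (LineThrough.dir L) / lin ((ld j).tf i₀) (LineThrough.dir L)) /
          ∏ i', if i' = i₀ then 1 else (ld j).t i₀ - (ld j).t i' := congrFun hcrd 1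
    rw [e0] at hs
    have h1 := tubeB_prod_le ((ld j).t i₀) (ld j).t
      (fun i => if i = i₀ then 1 else (ld j).t i₀ - (ld j).t i) (by
        intro i
        by_cases h : i = i₀
        · left
          simp [h]
        · right
          simp [h])
    refine tubeB_final (s := (ld j).crd (.exc (k8 (kk j i₀)) L) 1) ?_ h1
      (Finset.prod_nonneg fun i _ => by positivity) hs
    obtain ⟨α, β, hd⟩ := L.exists_coord d hdL
    have hBrep : lin (lvec (j8 j)) (hp (k8 (kk j i₀))).rep = 0 := ld_hB j i₀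
    have htrep : lin ((ld j).tf i₀) (hp (k8 (kk j i₀))).rep = 0 := (ld j).lin_tf_rep i₀
    have eB : lin (lvec (j8 j)) d = β * lin (lvec (j8 j)) (LineThrough.dir L) := by
      rw [hd, lin_add, lin_smul, lin_smul, hBrep, mul_zero, zero_add]
    have eT : lin (tcoef j) d = β * lin ((ld j).tf i₀) (LineThrough.dir L) := by
      have h3 : lin ((ld j).tf i₀) d = lin (tcoef j) d - (ld j).t i₀ * lin lM d :=
        (ld j).lin_tf i₀ d
      rw [hMd, mul_zero, sub_zero] at h3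
      rw [← h3, hd, lin_add, lin_smul, lin_smul, htrep, mul_zero, zero_add]
    have hP : (∏ i', if i' = i₀ then (1 : ℂ) else (ld j).t i₀ - (ld j).t i') ≠ 0 := by
      refine Finset.prod_ne_zero_iff.2 fun i _ => ?_
      split_ifs with h
      · exact one_ne_zero
      · intro h0
        exact h ((ld j).t_inj (sub_eq_zero.1 h0)).symm
    rw [eB, eT, e1, div_mul_cancel₀ _ hP]
    field_simp

end

end Pool.Agent.Lib.MP_ee7b66_ag
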