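import Mathlib
import Pool.Agent.Lib.MP_ee7b66_ag.G.LineDefs
import Pool.Agent.Lib.MP_ee7b66_ag.LC1

/-!
# Line charts: the domain is open
-/

open scoped LinearAlgebra.Projectivization
open Pool.Agent.Lib.MP_8481ed_ag TopologicalSpace MvPolynomial Topology

namespace Pool.Agent.Lib.MP_ee7b66_ag

noncomputable section

variable {r : ℕ} {p : Fin r → Plane ℂ}

/-- If the inverse of a nonzero rational function has the value zero at a point, then the function
is not regular there. -/
lemma lineA_not_reg {y : BlowUp p} {s : FunField} (hs : s ≠ 0) (h : Val p y s⁻¹ 0) :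
    ¬ Reg p y s := by
  intro hr
  obtain ⟨z, hz⟩ := hr.exists_val
  have h1 := h.mul hz
  rw [inv_mul_cancel₀ hs, zero_mul] at h1
  have h2 := Val.const (p := p) y 1
  rw [map_one] at h2
  exact zero_ne_one (h1.unique h2)

lemma lineA_inv_lq {c c' : Fin 3 → ℂ} (hc : c ≠ 0) (hc' : c' ≠ 0) : (lq c c')⁻¹ = lq c' c := by
  have h1 : lq c c' * lq c' c = 1 := by rw [lq_mul hc', lq_self hc]
  exact (eq_inv_of_mul_eq_one_right h1).symm

lemma lineA_not_reg_lq {y : BlowUp p} {c c' : Fin 3 → ℂ} (hc : c ≠ 0) (hc' : c' ≠ 0)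
    (h : Val p y (lq c' c) 0) : ¬ Reg p y (lq c c') :=
  lineA_not_reg (lq_ne_zero hc hc') (by rw [lineA_inv_lq hc hc']; exact h)

/-- Values of quotients of linear forms at points where the denominator does not vanish. -/
lemma lineA_val_vec (y : BlowUp p) (c c' : Fin 3 → ℂ) (h : lin c' y.vec ≠ 0) :
    Val p y (lq c c') (lin c y.vec / lin c' y.vec) := by
  cases y with
  | away q hq => exact val_lq_away q hq c c' h
  | exc i L => exact val_lq_exc i L c c' h

/-- Values of finite products. -/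
lemma lineA_val_prod {y : BlowUp p} {ι : Type*} (S : Finset ι) (f : ι → FunField) (z : ι → ℂ)
    (h : ∀ i ∈ S, Val p y (f i) (z i)) : Val p y (∏ i ∈ S, f i) (∏ i ∈ S, z i) := by
  classical
  induction S using Finset.induction_on with
  | empty =>
    have h2 := Val.const (p := p) y 1
    rw [map_one] at h2
    simpa using h2
  | insert a S ha ih =>
    rw [Finset.prod_insert ha, Finset.prod_insert ha]
    exact (h a (Finset.mem_insert_self a S)).mul
      (ih fun i hi => h i (Finset.mem_insert_of_mem hi))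

/-- a linear form which vanishes at the point and does not vanish on the line does not vanish on
the direction vector -/
lemma lineA_dir {P : Plane ℂ} (L : LineThrough P) {c : Fin 3 → ℂ} (hc : lin c P.rep = 0)
    (h : ∃ w ∈ L.1, lin c w ≠ 0) : lin c (LineThrough.dir L) ≠ 0 := by
  obtain ⟨w, hw, hw1⟩ := h
  obtain ⟨α, β, rfl⟩ := L.exists_coord w hw
  rw [lin_add, lin_smul, lin_smul, hc, mul_zero, zero_add] at hw1
  exact right_ne_zero_of_mul hw1

lemma lineA_lin_single (j : Fin 3) (v : Fin 3 → ℂ) : lin (Pi.single j 1) v = v j := by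
  unfold lin
  rw [Finset.sum_eq_single j]
  · rw [Pi.single_eq_same, one_mul]
  · intro i _ hij
    rw [Pi.single_eq_of_ne hij, zero_mul]
  · intro h
    exact (h (Finset.mem_univ j)).elim

lemma lineA_single_ne_zero (j : Fin 3) : (Pi.single j 1 : Fin 3 → ℂ) ≠ 0 := by
  intro h
  have h1 := congrFun h j
  rw [Pi.single_eq_same, Pi.zero_apply] at h1
  exact one_ne_zero h1

namespace LineData

variable (D : LineData p)

lemma lineA_tf_ne_zero (i : Fin 3) : D.tf i ≠ 0 := (D.frameAt i).row_ne_zero 1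

/-- The coefficients of the linear form `B - b l M`. -/
def lineA_bf (l : Fin r) : Fin 3 → ℂ := D.c 2 - D.b l • D.c 0

lemma lineA_lin_bf (l : Fin r) (v : Fin 3 → ℂ) :
    lin (D.lineA_bf l) v = lin (D.c 2) v - D.b l * lin (D.c 0) v := by
  simp only [lin, lineA_bf, Fin.sum_univ_three, Pi.sub_apply, Pi.smul_apply, smul_eq_mul]
  ring

/-- The forms `B - b l M` do not vanish identically: their value at the vector with coordinates
`(0, 0, 1)` is `1`. -/
lemma lineA_bf_ne_zero (l : Fin r) : D.lineA_bf l ≠ 0 := by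
  intro h
  have h1 : lin (D.lineA_bf l) (D.vecOf ![0, 0, 1]) = 1 := by
    rw [lineA_lin_bf, D.lin_vecOf, D.lin_vecOf]
    simp
  rw [h] at h1
  simp [lin] at h1

/-- A vector on which `T - t i M` and `B` vanish is a multiple of the vector of `p (k i)`. -/
lemma lineA_mem_span (i : Fin 3) (v : Fin 3 → ℂ) (h1 : lin (D.tf i) v = 0)
    (h2 : lin (D.c 2) v = 0) : ∃ a : ℂ, v = a • (p (D.k i)).rep := by
  have hM : lin ((D.frameAt i).c 0) (p (D.k i)).rep ≠ 0 := D.hM i
  refine ⟨lin (D.c 0) v / lin (D.c 0) (p (D.k i)).rep, ?_⟩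
  have e3 : (fun j => lin ((D.frameAt i).c j) v) =
      (lin (D.c 0) v / lin (D.c 0) (p (D.k i)).rep) •
        (fun j => lin ((D.frameAt i).c j) (p (D.k i)).rep) := by
    funext j
    fin_cases j
    · simp only [Pi.smul_apply, smul_eq_mul]
      exact (div_mul_cancel₀ _ hM).symm
    · simp only [Pi.smul_apply, smul_eq_mul]
      change lin (D.tf i) v = _ * lin (D.tf i) (p (D.k i)).rep
      rw [h1, D.lin_tf_rep, mul_zero]
    · simp only [Pi.smul_apply, smul_eq_mul]
      change lin (D.c 2) v = _ * lin (D.c 2) (p (D.k i)).rep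
      rw [h2, D.hB, mul_zero]
  calc v = (D.frameAt i).vecOf (fun j => lin ((D.frameAt i).c j) v) :=
        ((D.frameAt i).vecOf_lin v).symm
    _ = (lin (D.c 0) v / lin (D.c 0) (p (D.k i)).rep) •
        (D.frameAt i).vecOf (fun j => lin ((D.frameAt i).c j) (p (D.k i)).rep) := by
      rw [e3]
      simp only [Frame.vecOf, Matrix.mulVec_smul]
    _ = _ := by rw [(D.frameAt i).vecOf_lin]

/-- `v = (B / (T - t i M)) / ∏_{i' ≠ i} (T - t i' M) / M`. -/
lemma lineA_v_eq (i : Fin 3) :
    D.v = lq (D.c 2) (D.tf i) / ∏ i' ∈ Finset.univ.erase i, lq (D.tf i') (D.c 0) := by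
  unfold v
  rw [← Finset.mul_prod_erase Finset.univ _ (Finset.mem_univ i),
    ← lq_mul (c := D.c 2) (c'' := D.c 0) (D.lineA_tf_ne_zero i)]
  have h1 : lq (D.tf i) (D.c 0) ≠ 0 := lq_ne_zero (D.lineA_tf_ne_zero i) (D.row_ne_zero 0)
  rw [mul_comm (lq (D.c 2) (D.tf i)), mul_div_mul_left _ _ h1]

lemma lineA_v_ne_zero : D.v ≠ 0 :=
  div_ne_zero (lq_ne_zero (D.row_ne_zero 2) (D.row_ne_zero 0))
    (Finset.prod_ne_zero_iff.2 fun i _ => lq_ne_zero (D.lineA_tf_ne_zero i) (D.row_ne_zero 0))

/-- The values of the other two factors at the point `p (k i)` are not zero. -/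
lemma lineA_slope (i : Fin 3) :
    ∏ i' ∈ Finset.univ.erase i, (lin (D.tf i') (p (D.k i)).rep / lin (D.c 0) (p (D.k i)).rep) ≠
      0 := by
  rw [Finset.prod_ne_zero_iff]
  intro i' hi'
  have h1 : i' ≠ i := (Finset.mem_erase.1 hi').1
  refine div_ne_zero ?_ (D.hM i)
  rw [lin_tf, D.hT, ← sub_mul]
  exact mul_ne_zero (sub_ne_zero.2 fun h => h1 (D.t_inj h).symm) (D.hM i)

/-- `v` is regular at the points of the domain. -/
lemma lineA_reg_v {y : BlowUp p} (hy : D.dom y) : Reg p y D.v := by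
  cases y with
  | away q hq =>
    obtain ⟨h0, h1, h2⟩ := hy
    have h3 : Val p (.away q hq) (∏ i, lq (D.tf i) (D.c 0))
        (∏ i, (lin (D.tf i) q.rep / lin (D.c 0) q.rep)) :=
      lineA_val_prod _ _ _ fun i _ => val_lq_away q hq _ _ h0
    have h4 : ∏ i, (lin (D.tf i) q.rep / lin (D.c 0) q.rep) ≠ 0 :=
      Finset.prod_ne_zero_iff.2 fun i _ => div_ne_zero (h1 i) h0
    have h5 := (val_lq_away q hq (D.c 2) (D.c 0) h0).mul (h3.inv h4)
    rw [← div_eq_mul_inv] at h5
    exact h5.reg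
  | exc l L =>
    obtain ⟨i, rfl, hw⟩ := hy
    have hdir := lineA_dir L (D.lin_tf_rep i) hw
    have h3 : Val p (.exc (D.k i) L) (∏ i' ∈ Finset.univ.erase i, lq (D.tf i') (D.c 0))
        (∏ i' ∈ Finset.univ.erase i,
          (lin (D.tf i') (p (D.k i)).rep / lin (D.c 0) (p (D.k i)).rep)) :=
      lineA_val_prod _ _ _ fun i' _ => val_lq_exc _ L _ _ (D.hM i)
    have h5 := (val_lq_exc' (D.k i) L (D.c 2) (D.tf i) (D.lin_tf_rep i) (D.hB i) _ L.dir_mem
      hdir).mul (h3.inv (D.lineA_slope i))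
    rw [← div_eq_mul_inv, ← D.lineA_v_eq i] at h5
    exact h5.reg

/-- At an affine point with `M ≠ 0` where `T - t i M` vanishes, `v` is not regular. -/
lemma lineA_not_reg_away (q : Plane ℂ) (hq : ∀ i, q ≠ p i) (h0 : lin (D.c 0) q.rep ≠ 0) (i : Fin 3)
    (h1 : lin (D.tf i) q.rep = 0) : ¬ Reg p (.away q hq) D.v := by
  have hB : lin (D.c 2) q.rep ≠ 0 := by
    intro h2
    obtain ⟨a, ha⟩ := D.lineA_mem_span i q.rep h1 h2
    apply hq (D.k i)
    rw [← q.mk_rep, ← (p (D.k i)).mk_rep, Projectivization.mk_eq_mk_iff']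
    exact ⟨a, ha.symm⟩
  apply lineA_not_reg D.lineA_v_ne_zero
  have h3 : Val p (.away q hq) (∏ i, lq (D.tf i) (D.c 0))
      (∏ i, (lin (D.tf i) q.rep / lin (D.c 0) q.rep)) :=
    lineA_val_prod _ _ _ fun i _ => val_lq_away q hq _ _ h0
  have h4 : ∏ i, (lin (D.tf i) q.rep / lin (D.c 0) q.rep) = 0 :=
    Finset.prod_eq_zero (Finset.mem_univ i) (by rw [h1, zero_div])
  rw [h4] at h3
  have h5 := h3.mul ((val_lq_away q hq (D.c 2) (D.c 0) h0).inv (div_ne_zero hB h0))
  rw [zero_mul, ← div_eq_mul_inv] at h5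
  unfold v
  rw [inv_div]
  exact h5

/-- At a point `(p (k i), L)` with `T - t i M = 0` on `L`, `v` is not regular. -/
lemma lineA_not_reg_exc (i : Fin 3) (L : LineThrough (p (D.k i)))
    (h1 : ∀ w ∈ L.1, lin (D.tf i) w = 0) : ¬ Reg p (.exc (D.k i) L) D.v := by
  have hB : lin (D.c 2) (LineThrough.dir L) ≠ 0 := by
    intro h2
    obtain ⟨a, ha⟩ := D.lineA_mem_span i _ (h1 _ L.dir_mem) h2
    apply L.dir_not_mem
    rw [Projectivization.submodule_eq, Submodule.mem_span_singleton]
    exact ⟨a, ha.symm⟩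
  apply lineA_not_reg D.lineA_v_ne_zero
  have h3 : Val p (.exc (D.k i) L) (∏ i' ∈ Finset.univ.erase i, lq (D.tf i') (D.c 0))
      (∏ i' ∈ Finset.univ.erase i,
        (lin (D.tf i') (p (D.k i)).rep / lin (D.c 0) (p (D.k i)).rep)) :=
    lineA_val_prod _ _ _ fun i' _ => val_lq_exc _ L _ _ (D.hM i)
  have h4 := val_lq_exc' (D.k i) L (D.tf i) (D.c 2) (D.hB i) (D.lin_tf_rep i) _ L.dir_mem hB
  rw [h1 _ L.dir_mem, zero_div] at h4
  have h5 := h3.mul h4
  rw [mul_zero, ← lineA_inv_lq (D.row_ne_zero 2) (D.lineA_tf_ne_zero i), ← div_eq_mul_inv] at h5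
  rw [D.lineA_v_eq i, inv_div]
  exact h5

end LineData

/-- The domain is the set of points at which the following rational functions are regular:
`X_i / M` (`i : Fin 3`), `v`, and `M / (B - b l M)` for the blown up points `p l` outside `M = 0`
and outside the line. -/
lemma LineData.isOpen_dom (D : LineData p) : IsOpen {y : BlowUp p | D.dom y} := by
  classical
  have hopen : ∀ s : FunField, IsOpen {y : BlowUp p | Reg p y s} := fun s =>
    isOpen_generateFrom_of_mem ⟨incl s, rfl⟩
  have hM0 := D.row_ne_zero 0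
  have hset : {y : BlowUp p | D.dom y} = ({y | Reg p y D.v} ∩
      ⋂ j : Fin 3, {y | Reg p y (lq (Pi.single j 1) (D.c 0))}) ∩
      ⋂ l : {l : Fin r // (∀ i, l ≠ D.k i) ∧ lin (D.c 0) (p l).rep ≠ 0},
        {y | Reg p y (lq (D.c 0) (D.lineA_bf l.1))} := by
    ext y
    simp only [Set.mem_ofPred_eq, Set.mem_inter_iff, Set.mem_iInter]
    constructor
    · intro hy
      refine ⟨⟨D.lineA_reg_v hy, ?_⟩, ?_⟩
      · intro j
        refine (lineA_val_vec y (Pi.single j 1) (D.c 0) ?_).reg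
        cases y with
        | away q hq => exact hy.1
        | exc l L =>
          obtain ⟨i, rfl, -⟩ := hy
          exact D.hM i
      · rintro ⟨l, hl1, hl2⟩
        refine (lineA_val_vec y (D.c 0) (D.lineA_bf l) ?_).reg
        cases y with
        | away q hq =>
          change lin (D.lineA_bf l) q.rep ≠ 0
          rw [D.lineA_lin_bf]
          exact sub_ne_zero.2 (hy.2.2 l hl1 hl2)
        | exc l' L =>
          obtain ⟨i, rfl, -⟩ := hy
          change lin (D.lineA_bf l) (p (D.k i)).rep ≠ 0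
          rw [D.lineA_lin_bf, D.hB, zero_sub]
          exact neg_ne_zero.2 (mul_ne_zero (D.hb l hl1 hl2).1 (D.hM i))
    · rintro ⟨⟨hv, hX⟩, hl⟩
      have hM : lin (D.c 0) y.vec ≠ 0 := by
        intro h0
        obtain ⟨j, hj⟩ := Function.ne_iff.1 y.vec_ne_zero
        have hj' : lin (Pi.single j 1) y.vec ≠ 0 := by
          rw [lineA_lin_single]
          exact hj
        have h1 := lineA_val_vec y (D.c 0) (Pi.single j 1) hj'
        rw [h0, zero_div] at h1
        exact lineA_not_reg_lq (lineA_single_ne_zero j) hM0 h1 (hX j)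
      have hbne : ∀ l, (∀ i, l ≠ D.k i) → lin (D.c 0) (p l).rep ≠ 0 →
          lin (D.c 2) y.vec ≠ D.b l * lin (D.c 0) y.vec := by
        intro l h1 h2 h3
        have h4 := lineA_val_vec y (D.lineA_bf l) (D.c 0) hM
        rw [D.lineA_lin_bf, h3, sub_self, zero_div] at h4
        exact lineA_not_reg_lq hM0 (D.lineA_bf_ne_zero l) h4 (hl ⟨l, h1, h2⟩)
      cases y with
      | away q hq =>
        exact ⟨hM, fun i h1 => D.lineA_not_reg_away q hq hM i h1 hv, hbne⟩
      | exc l L =>
        by_cases h1 : ∃ i, l = D.k i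
        · obtain ⟨i, rfl⟩ := h1
          refine ⟨i, rfl, ?_⟩
          by_contra hcon
          push Not at hcon
          exact D.lineA_not_reg_exc i L hcon hv
        · exfalso
          have h1' : ∀ i, l ≠ D.k i := fun i h => h1 ⟨i, h⟩
          exact hbne l h1' hM (D.hb l h1' hM).2
  rw [hset]
  exact ((hopen _).inter (isOpen_iInter_of_finite fun _ => hopen _)).inter
    (isOpen_iInter_of_finite fun _ => hopen _)

end

end Pool.Agent.Lib.MP_ee7b66_ag
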