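import Mathlib
import Pool.Agent.Lib.MP_ee7b66_ag.G.LineDefs

/-!
# Line charts: bijectivity
-/

open scoped LinearAlgebra.Projectivization
open Pool.Agent.Lib.MP_8481ed_ag TopologicalSpace MvPolynomial Topology

namespace Pool.Agent.Lib.MP_ee7b66_ag

noncomputable section

variable {r : ℕ} {p : Fin r → Plane ℂ}

namespace LineData

variable (D : LineData p)

omit D in
/-- a linear form which vanishes at the point and does not vanish on the line does not vanish on
the direction vector -/
lemma lineB_dir {P : Plane ℂ} (L : LineThrough P) {c : Fin 3 → ℂ} (hc : lin c P.rep = 0)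
    (h : ∃ w ∈ L.1, lin c w ≠ 0) : lin c (LineThrough.dir L) ≠ 0 := by
  obtain ⟨w, hw, hw1⟩ := h
  obtain ⟨α, β, rfl⟩ := L.exists_coord w hw
  rw [lin_add, lin_smul, lin_smul, hc, mul_zero, zero_add] at hw1
  exact right_ne_zero_of_mul hw1

/-- the factors of `gpoly` -/
lemma lineB_eval_gpoly (z : Fin 2 → ℂ) : eval z D.gpoly ≠ 0 ↔
    ∀ l, (∀ i, l ≠ D.k i) → lin (D.c 0) (p l).rep ≠ 0 →
      z 1 * ∏ i, (z 0 - D.t i) - D.b l ≠ 0 := by
  classical
  have e : ∀ l : Fin r, eval z (MvPolynomial.X 1 * ∏ i, (MvPolynomial.X 0 - MvPolynomial.C (D.t i))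
      - MvPolynomial.C (D.b l)) = z 1 * ∏ i, (z 0 - D.t i) - D.b l := by
    intro l
    simp only [map_sub, map_mul, map_prod, eval_X, eval_C]
  unfold gpoly
  rw [map_prod, Finset.prod_ne_zero_iff]
  constructor
  · intro h l h1 h2
    have h3 := h l (Finset.mem_univ l)
    rw [if_pos ⟨h1, h2⟩, e] at h3
    exact h3
  · intro h l _
    by_cases h1 : (∀ i, l ≠ D.k i) ∧ lin (D.c 0) (p l).rep ≠ 0
    · rw [if_pos h1, e]
      exact h l h1.1 h1.2
    · rw [if_neg h1, map_one]
      exact one_ne_zero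

lemma lineB_slope_ne (i : Fin 3) : (∏ i', if i' = i then 1 else D.t i - D.t i') ≠ 0 := by
  rw [Finset.prod_ne_zero_iff]
  intro i' _
  split_ifs with h
  · exact one_ne_zero
  · intro h1
    exact h (D.t_inj (sub_eq_zero.1 h1)).symm

lemma lineB_prod_away {q : Plane ℂ} (h0 : lin (D.c 0) q.rep ≠ 0) :
    ∏ i, (lin (D.c 1) q.rep / lin (D.c 0) q.rep - D.t i) =
      ∏ i, (lin (D.tf i) q.rep / lin (D.c 0) q.rep) := by
  refine Finset.prod_congr rfl fun i _ => ?_
  rw [lin_tf, sub_div, mul_div_assoc, div_self h0, mul_one]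

lemma g_ne (y : BlowUp p) (hy : D.dom y) : eval (D.crd y) D.gpoly ≠ 0 := by
  rw [lineB_eval_gpoly]
  intro l h1 h2
  cases y with
  | away q hq =>
    obtain ⟨h0, ht, hb⟩ := hy
    have h3 := hb l h1 h2
    have e0 : D.crd (.away q hq : BlowUp p) 0 = lin (D.c 1) q.rep / lin (D.c 0) q.rep := rfl
    have e1 : D.crd (.away q hq : BlowUp p) 1 = (lin (D.c 2) q.rep / lin (D.c 0) q.rep) /
        ∏ i, (lin (D.tf i) q.rep / lin (D.c 0) q.rep) := rfl
    have hprod : ∏ i, (lin (D.tf i) q.rep / lin (D.c 0) q.rep) ≠ 0 :=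
      Finset.prod_ne_zero_iff.2 fun i _ => div_ne_zero (ht i) h0
    rw [e0, e1, D.lineB_prod_away h0, div_mul_cancel₀ _ hprod]
    intro h4
    apply h3
    rw [sub_eq_zero, div_eq_iff h0] at h4
    exact h4
  | exc i L =>
    obtain ⟨i', rfl, hw⟩ := hy
    rw [D.crd_exc]
    have e : ∏ i, (![D.t i', (lin (D.c 2) (LineThrough.dir L) / lin (D.tf i') (LineThrough.dir L)) /
      ∏ i'', if i'' = i' then 1 else D.t i' - D.t i''] 0 - D.t i) = 0 := by
      refine Finset.prod_eq_zero (Finset.mem_univ i') ?_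
      change D.t i' - D.t i' = 0
      rw [sub_self]
    rw [e, mul_zero, zero_sub]
    exact neg_ne_zero.2 (D.hb l h1 h2).1

omit D in
/-- a vector on which the two forms vanish is a multiple of the vector of the point -/
lemma lineB_mem_span {k : Fin r} (F : FrameAt p k) (v : Fin 3 → ℂ) (h1 : lin (F.c 1) v = 0)
    (h2 : lin (F.c 2) v = 0) : ∃ a : ℂ, v = a • (p k).rep := by
  have hM := F.hM
  refine ⟨lin (F.c 0) v / lin (F.c 0) (p k).rep, ?_⟩
  have e3 : (fun j => lin (F.c j) v) =
      (lin (F.c 0) v / lin (F.c 0) (p k).rep) • (fun j => lin (F.c j) (p k).rep) := by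
    funext j
    fin_cases j
    · simp only [Pi.smul_apply, smul_eq_mul]
      exact (div_mul_cancel₀ _ hM).symm
    · simp only [Pi.smul_apply, smul_eq_mul]
      change lin (F.c 1) v = _ * lin (F.c 1) (p k).rep
      rw [h1, F.hU, mul_zero]
    · simp only [Pi.smul_apply, smul_eq_mul]
      change lin (F.c 2) v = _ * lin (F.c 2) (p k).rep
      rw [h2, F.hV, mul_zero]
  calc v = F.vecOf (fun j => lin (F.c j) v) := (F.vecOf_lin v).symm
    _ = (lin (F.c 0) v / lin (F.c 0) (p k).rep) •
        F.vecOf (fun j => lin (F.c j) (p k).rep) := by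
      rw [e3]
      simp only [Frame.vecOf, Matrix.mulVec_smul]
    _ = _ := by rw [F.vecOf_lin]

/-- For `t ≠ t i`: the point with coordinates `(1, t, s ∏ (t - t i))` in the frame; for `t = t i`:
the line through `p (k i)` with slope `s ∏_{i' ≠ i} (t i - t i')`. -/
lemma surj (z : Fin 2 → ℂ) (hz : eval z D.gpoly ≠ 0) : ∃ y : BlowUp p, D.dom y ∧ D.crd y = z := by
  rw [lineB_eval_gpoly] at hz
  by_cases h0 : ∃ i, z 0 = D.t i
  · obtain ⟨i, hi⟩ := h0
    obtain ⟨π, hπ⟩ : ∃ π : ℂ, π = ∏ i', if i' = i then 1 else D.t i - D.t i' := ⟨_, rfl⟩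
    have hπ0 : π ≠ 0 := by rw [hπ]; exact D.lineB_slope_ne i
    obtain ⟨v, hv⟩ : ∃ v, v = (D.frameAt i).vecOf ![0, 1, z 1 * π] := ⟨_, rfl⟩
    have hw1 : lin (D.tf i) v = 1 := by rw [hv]; exact (D.frameAt i).lin_vecOf _ 1
    have hw2 : lin (D.c 2) v = z 1 * π := by rw [hv]; exact (D.frameAt i).lin_vecOf _ 2
    have hw : v ∉ (p (D.k i)).submodule := by
      intro hmem
      rw [Projectivization.submodule_eq, Submodule.mem_span_singleton] at hmem
      obtain ⟨a, ha⟩ := hmem
      rw [← ha, lin_smul, D.lin_tf_rep, mul_zero] at hw1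
      exact zero_ne_one hw1
    obtain ⟨α, β, hβ, hdir⟩ := LineThrough.ofDir_dir (p (D.k i)) _ hw
    refine ⟨.exc (D.k i) (LineThrough.ofDir (p (D.k i)) _ hw), ?_, ?_⟩
    · rw [D.dom_exc, hdir, lin_add, lin_smul, lin_smul, D.lin_tf_rep, hw1, mul_zero, zero_add,
        mul_one]
      exact hβ
    · rw [D.crd_exc, ← hπ]
      funext j
      fin_cases j
      · exact hi.symm
      · change lin (D.c 2) (LineThrough.dir _) / lin (D.tf i) (LineThrough.dir _) / π = z 1
        rw [hdir, lin_add, lin_smul, lin_smul, lin_add, lin_smul, lin_smul, D.lin_tf_rep, D.hB,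
          hw1, hw2, mul_zero, zero_add, zero_add, mul_one]
        field_simp
  · have h0' : ∀ i, z 0 - D.t i ≠ 0 := fun i h => h0 ⟨i, sub_eq_zero.1 h⟩
    obtain ⟨π, hπ⟩ : ∃ π : ℂ, π = ∏ i, (z 0 - D.t i) := ⟨_, rfl⟩
    have hπ0 : π ≠ 0 := by
      rw [hπ]
      exact Finset.prod_ne_zero_iff.2 fun i _ => h0' i
    rw [← hπ] at hz
    obtain ⟨v, hv⟩ : ∃ v, v = D.vecOf ![1, z 0, z 1 * π] := ⟨_, rfl⟩
    have hv0 : lin (D.c 0) v = 1 := by rw [hv]; exact D.lin_vecOf _ 0
    have hv1 : lin (D.c 1) v = z 0 := by rw [hv]; exact D.lin_vecOf _ 1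
    have hv2 : lin (D.c 2) v = z 1 * π := by rw [hv]; exact D.lin_vecOf _ 2
    have hvt : ∀ i, lin (D.tf i) v = z 0 - D.t i := by
      intro i
      rw [lin_tf, hv0, hv1, mul_one]
    have hvne : v ≠ 0 := by
      intro h3
      rw [h3] at hv0
      simp [lin] at hv0
    obtain ⟨a, ha⟩ := Projectivization.exists_smul_eq_mk_rep ℂ v hvne
    rw [Units.smul_def] at ha
    have ha0 : (a : ℂ) ≠ 0 := a.ne_zero
    have hlin : ∀ c, lin c (Projectivization.mk ℂ v hvne).rep = a * lin c v := by
      intro c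
      rw [← ha, lin_smul]
    have hM : lin (D.c 0) (Projectivization.mk ℂ v hvne).rep ≠ 0 := by
      rw [hlin, hv0, mul_one]
      exact ha0
    have hb : ∀ l, (∀ i, l ≠ D.k i) → lin (D.c 0) (p l).rep ≠ 0 →
        lin (D.c 2) (Projectivization.mk ℂ v hvne).rep ≠
          D.b l * lin (D.c 0) (Projectivization.mk ℂ v hvne).rep := by
      intro l h1 h2 h3
      rw [hlin, hlin, hv0, hv2] at h3
      apply hz l h1 h2
      have h4 : (a : ℂ) * (z 1 * π - D.b l) = 0 := by linear_combination h3
      exact (mul_eq_zero.1 h4).resolve_left ha0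
    refine ⟨.away (Projectivization.mk ℂ v hvne) ?_, ⟨hM, ?_, hb⟩, ?_⟩
    · intro l hl
      by_cases h1 : ∃ i, l = D.k i
      · obtain ⟨i, rfl⟩ := h1
        have h3 := hlin (D.tf i)
        rw [hl, D.lin_tf_rep, hvt] at h3
        exact mul_ne_zero ha0 (h0' i) h3.symm
      · have h1' : ∀ i, l ≠ D.k i := fun i h => h1 ⟨i, h⟩
        have h2 : lin (D.c 0) (p l).rep ≠ 0 := by
          rw [← hl]
          exact hM
        refine hb l h1' h2 ?_
        rw [hl]
        exact (D.hb l h1' h2).2
    · intro i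
      rw [hlin, hvt]
      exact mul_ne_zero ha0 (h0' i)
    · funext j
      fin_cases j
      · change lin (D.c 1) _ / lin (D.c 0) _ = z 0
        rw [hlin, hlin, hv0, hv1]
        field_simp
      · change (lin (D.c 2) (Projectivization.mk ℂ v hvne).rep /
            lin (D.c 0) (Projectivization.mk ℂ v hvne).rep) /
          ∏ i, (lin (D.tf i) (Projectivization.mk ℂ v hvne).rep /
            lin (D.c 0) (Projectivization.mk ℂ v hvne).rep) = z 1
        have e2 : ∏ i, (lin (D.tf i) (Projectivization.mk ℂ v hvne).rep /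
            lin (D.c 0) (Projectivization.mk ℂ v hvne).rep) = π := by
          rw [hπ]
          refine Finset.prod_congr rfl fun i _ => ?_
          rw [hlin, hlin, hvt, hv0]
          field_simp
        rw [e2, hlin, hlin, hv0, hv2]
        field_simp

lemma inj' (y y' : BlowUp p) (hy : D.dom y) (hy' : D.dom y') (e : D.crd y = D.crd y') :
    y = y' := by
  cases y with
  | away q hq =>
    obtain ⟨h0, h1, h2⟩ := hy
    cases y' with
    | away q' hq' =>
      obtain ⟨h0', h1', h2'⟩ := hy'
      have e0 : lin (D.c 1) q.rep / lin (D.c 0) q.rep = lin (D.c 1) q'.rep / lin (D.c 0) q'.rep :=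
        congrFun e 0
      have e1 : (lin (D.c 2) q.rep / lin (D.c 0) q.rep) /
          ∏ i, (lin (D.tf i) q.rep / lin (D.c 0) q.rep) =
          (lin (D.c 2) q'.rep / lin (D.c 0) q'.rep) /
          ∏ i, (lin (D.tf i) q'.rep / lin (D.c 0) q'.rep) := congrFun e 1
      have hprod : ∏ i, (lin (D.tf i) q.rep / lin (D.c 0) q.rep) =
          ∏ i, (lin (D.tf i) q'.rep / lin (D.c 0) q'.rep) := by
        rw [← D.lineB_prod_away h0, ← D.lineB_prod_away h0', e0]
      have hprod0 : ∏ i, (lin (D.tf i) q'.rep / lin (D.c 0) q'.rep) ≠ 0 :=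
        Finset.prod_ne_zero_iff.2 fun i _ => div_ne_zero (h1' i) h0'
      rw [hprod] at e1
      have e2 : lin (D.c 2) q.rep / lin (D.c 0) q.rep = lin (D.c 2) q'.rep / lin (D.c 0) q'.rep :=
        (div_left_inj' hprod0).1 e1
      have hqq : q = q' := by
        rw [← q.mk_rep, ← q'.mk_rep, Projectivization.mk_eq_mk_iff']
        refine ⟨lin (D.c 0) q.rep / lin (D.c 0) q'.rep, ?_⟩
        have e3 : (fun j => lin (D.c j) q.rep) =
            (lin (D.c 0) q.rep / lin (D.c 0) q'.rep) • (fun j => lin (D.c j) q'.rep) := by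
          rw [div_eq_div_iff h0 h0'] at e0 e2
          funext j
          fin_cases j
          · simp only [Pi.smul_apply, smul_eq_mul]
            exact (div_mul_cancel₀ _ h0').symm
          · simp only [Pi.smul_apply, smul_eq_mul]
            change lin (D.c 1) q.rep = _ * lin (D.c 1) q'.rep
            rw [div_mul_eq_mul_div, eq_div_iff h0']
            linear_combination e0
          · simp only [Pi.smul_apply, smul_eq_mul]
            change lin (D.c 2) q.rep = _ * lin (D.c 2) q'.rep
            rw [div_mul_eq_mul_div, eq_div_iff h0']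
            linear_combination e2
        calc (lin (D.c 0) q.rep / lin (D.c 0) q'.rep) • q'.rep
            = (lin (D.c 0) q.rep / lin (D.c 0) q'.rep) •
              D.vecOf (fun j => lin (D.c j) q'.rep) := by rw [D.vecOf_lin]
          _ = D.vecOf (fun j => lin (D.c j) q.rep) := by
            rw [e3]
            simp only [Frame.vecOf, Matrix.mulVec_smul]
          _ = q.rep := D.vecOf_lin _
      subst hqq
      rfl
    | exc i' L' =>
      exfalso
      obtain ⟨i, rfl, hw⟩ := hy'
      rw [D.crd_exc] at e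
      have e0 : lin (D.c 1) q.rep / lin (D.c 0) q.rep = D.t i := congrFun e 0
      apply h1 i
      rw [lin_tf, sub_eq_zero]
      exact (div_eq_iff h0).1 e0
  | exc i L =>
    obtain ⟨i, rfl, hL⟩ := hy
    cases y' with
    | away q' hq' =>
      obtain ⟨h0', h1', h2'⟩ := hy'
      exfalso
      rw [D.crd_exc] at e
      have e0 : D.t i = lin (D.c 1) q'.rep / lin (D.c 0) q'.rep := congrFun e 0
      apply h1' i
      rw [lin_tf, sub_eq_zero]
      exact (div_eq_iff h0').1 e0.symm
    | exc i' L' =>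
      obtain ⟨i', rfl, hL'⟩ := hy'
      rw [D.crd_exc, D.crd_exc] at e
      have e0 : D.t i = D.t i' := congrFun e 0
      have hii := D.t_inj e0
      subst hii
      have e1 : lin (D.c 2) (LineThrough.dir L) / lin (D.tf i) (LineThrough.dir L) /
          (∏ i', if i' = i then 1 else D.t i - D.t i') =
          lin (D.c 2) (LineThrough.dir L') / lin (D.tf i) (LineThrough.dir L') /
          (∏ i', if i' = i then 1 else D.t i - D.t i') := congrFun e 1
      have h1 := lineB_dir L (D.lin_tf_rep i) hL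
      have h1' := lineB_dir L' (D.lin_tf_rep i) hL'
      rw [div_left_inj' (D.lineB_slope_ne i), div_eq_div_iff h1 h1'] at e1
      obtain ⟨a, ha⟩ := lineB_mem_span (D.frameAt i)
        (LineThrough.dir L' + (-(lin (D.tf i) (LineThrough.dir L') / lin (D.tf i)
          (LineThrough.dir L))) • LineThrough.dir L) (by
          change lin (D.tf i) _ = 0
          rw [lin_add, lin_smul]
          field_simp
          ring) (by
          change lin (D.c 2) _ = 0
          rw [lin_add, lin_smul]
          field_simp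
          linear_combination -e1)
      have hmem : LineThrough.dir L' ∈ L.1 := by
        have h4 : LineThrough.dir L' = a • (p (D.k i)).rep +
            (lin (D.tf i) (LineThrough.dir L') / lin (D.tf i) (LineThrough.dir L)) •
              LineThrough.dir L := by
          rw [← ha]
          module
        rw [h4]
        exact L.1.add_mem (L.1.smul_mem _ L.rep_mem) (L.1.smul_mem _ L.dir_mem)
      have hle : L'.1 ≤ L.1 := by
        intro w hw
        obtain ⟨α, β, rfl⟩ := L'.exists_coord w hw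
        exact L.1.add_mem (L.1.smul_mem _ L.rep_mem) (L.1.smul_mem _ hmem)
      have heq : L'.1 = L.1 :=
        Submodule.eq_of_le_of_finrank_eq hle (by rw [L.2.1, L'.2.1])
      have : L = L' := Subtype.ext heq.symm
      rw [this]

end LineData

end

end Pool.Agent.Lib.MP_ee7b66_ag
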