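import Mathlib
import Pool.Agent.Lib.MP_ee7b66_ag.G.LineDefs
import Pool.Agent.Lib.MP_ee7b66_ag.LC1

/-!
# Line charts: values of the coordinates
-/

open scoped LinearAlgebra.Projectivization
open Pool.Agent.Lib.MP_8481ed_ag TopologicalSpace MvPolynomial Topology

namespace Pool.Agent.Lib.MP_ee7b66_ag

noncomputable section

variable {r : ℕ} {p : Fin r → Plane ℂ}

namespace LineData

variable (D : LineData p)

private lemma linec_tf_ne (i : Fin 3) : D.tf i ≠ 0 := (D.frameAt i).row_ne_zero 1

private lemma linec_prod {y : BlowUp p} {s : Fin 3 → FunField} {c : Fin 3 → ℂ}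
    (h : ∀ i, Val p y (s i) (c i)) : Val p y (∏ i, s i) (∏ i, c i) := by
  rw [Fin.prod_univ_three, Fin.prod_univ_three]
  exact ((h 0).mul (h 1)).mul (h 2)

private lemma linec_one (y : BlowUp p) : Val p y 1 1 := by
  have h := Val.const (p := p) y 1
  rwa [map_one] at h

lemma val_u (y : BlowUp p) (hy : D.dom y) : Val p y D.u (D.crd y 0) := by
  cases y with
  | away q hq => exact val_lq_away q hq _ _ hy.1
  | exc l L =>
    obtain ⟨i, rfl, w, hw, hw'⟩ := hy
    rw [D.crd_exc i L]
    have h := val_lq_exc (D.k i) L (D.c 1) (D.c 0) (D.hM i)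
    rw [D.hT i, mul_div_cancel_right₀ _ (D.hM i)] at h
    exact h

/-- At `exc (k i) L`: `v = lq B (tf i) / ∏_{i' ≠ i} lq (tf i') M`. -/
lemma val_v (y : BlowUp p) (hy : D.dom y) : Val p y D.v (D.crd y 1) := by
  cases y with
  | away q hq =>
    have h1 := val_lq_away q hq (D.c 2) (D.c 0) hy.1
    have h2 := linec_prod fun i => val_lq_away q hq (D.tf i) (D.c 0) hy.1
    have h3 : ∏ i, lin (D.tf i) q.rep / lin (D.c 0) q.rep ≠ 0 :=
      Finset.prod_ne_zero_iff.2 fun i _ => div_ne_zero (hy.2.1 i) hy.1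
    have h4 := h1.mul (h2.inv h3)
    rw [← div_eq_mul_inv, ← div_eq_mul_inv] at h4
    exact h4
  | exc l L =>
    obtain ⟨i, rfl, w, hw, hw'⟩ := hy
    have hdir : lin (D.tf i) (LineThrough.dir L) ≠ 0 :=
      (D.dom_exc i L).1 ⟨i, rfl, w, hw, hw'⟩
    rw [D.crd_exc i L]
    have h1 := val_lq_exc' (D.k i) L (D.c 2) (D.tf i) (D.lin_tf_rep i) (D.hB i)
      (LineThrough.dir L) (LineThrough.dir_mem L) hdir
    have hc0 := D.row_ne_zero 0
    have h2 : ∀ i' : Fin 3, Val p (.exc (D.k i) L)
        (if i' = i then (1 : FunField) else lq (D.tf i') (D.c 0))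
        (if i' = i then (1 : ℂ) else D.t i - D.t i') := by
      intro i'
      by_cases h : i' = i
      · rw [if_pos h, if_pos h]
        exact linec_one _
      · rw [if_neg h, if_neg h]
        have h3 := val_lq_exc (D.k i) L (D.tf i') (D.c 0) (D.hM i)
        rw [D.lin_tf, D.hT i, ← sub_mul, mul_div_cancel_right₀ _ (D.hM i)] at h3
        exact h3
    have h3 := linec_prod h2
    have h4 : ∏ i' : Fin 3, (if i' = i then (1 : ℂ) else D.t i - D.t i') ≠ 0 := by
      refine Finset.prod_ne_zero_iff.2 fun i' _ => ?_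
      by_cases h : i' = i
      · rw [if_pos h]
        exact one_ne_zero
      · rw [if_neg h]
        exact sub_ne_zero.2 fun e => h (D.t_inj e).symm
    have h5 := h1.mul (h3.inv h4)
    rw [← div_eq_mul_inv, ← div_eq_mul_inv] at h5
    have h6 : D.v = lq (D.c 2) (D.tf i) /
        ∏ i' : Fin 3, (if i' = i then (1 : FunField) else lq (D.tf i') (D.c 0)) := by
      unfold LineData.v
      have h7 : ∏ i', lq (D.tf i') (D.c 0) = lq (D.tf i) (D.c 0) *
          ∏ i' : Fin 3, (if i' = i then (1 : FunField) else lq (D.tf i') (D.c 0)) := by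
        have h8 : ∀ i' : Fin 3, lq (D.tf i') (D.c 0) =
            (if i' = i then lq (D.tf i) (D.c 0) else 1) *
              (if i' = i then (1 : FunField) else lq (D.tf i') (D.c 0)) := by
          intro i'
          by_cases h : i' = i
          · rw [if_pos h, if_pos h, mul_one, h]
          · rw [if_neg h, if_neg h, one_mul]
        rw [Finset.prod_congr rfl fun i' _ => h8 i', Finset.prod_mul_distrib,
          Finset.prod_ite_eq', if_pos (Finset.mem_univ i)]
      rw [h7, ← lq_mul (D.linec_tf_ne i) (c := D.c 2) (c'' := D.c 0)]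
      rw [mul_comm (lq (D.tf i) (D.c 0)), mul_div_mul_right _ _
        (lq_ne_zero (D.linec_tf_ne i) hc0)]
    rw [h6]
    exact h5

end LineData

end

end Pool.Agent.Lib.MP_ee7b66_ag
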