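import Mathlib
import Pool.Agent.Lib.MP_ee7b66_ag.G.LineDefs
import Pool.Agent.Lib.MP_ee7b66_ag.Away

/-!
# Line charts: regular functions
-/

open scoped LinearAlgebra.Projectivization
open Pool.Agent.Lib.MP_8481ed_ag TopologicalSpace MvPolynomial Topology

namespace Pool.Agent.Lib.MP_ee7b66_ag

noncomputable section

variable {r : ℕ} {p : Fin r → Plane ℂ}

private lemma lined_lq_tf (D : LineData p) (i : Fin 3) :
    lq (D.tf i) (D.c 0) = D.u - algebraMap ℂ FunField (D.t i) := by
  have h1 : D.tf i = D.c 1 + (-(D.t i)) • D.c 0 := by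
    unfold LineData.tf
    rw [neg_smul, sub_eq_add_neg]
  rw [h1, lq_add, lq_smul, lq_self (D.row_ne_zero 0), mul_one, map_neg, ← sub_eq_add_neg]
  rfl

private lemma lined_tf_ne (D : LineData p) (i : Fin 3) : D.tf i ≠ 0 :=
  (D.frameAt i).row_ne_zero 1

private lemma lined_prod (D : LineData p) (i : Fin 3) :
    ∏ i', lq (D.tf i') (D.c 0) = lq (D.tf i) (D.c 0) *
      ∏ i' : Fin 3, (if i' = i then (1 : FunField) else lq (D.tf i') (D.c 0)) := by
  have h8 : ∀ i' : Fin 3, lq (D.tf i') (D.c 0) =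
      (if i' = i then lq (D.tf i) (D.c 0) else 1) *
        (if i' = i then (1 : FunField) else lq (D.tf i') (D.c 0)) := by
    intro i'
    by_cases h : i' = i
    · rw [if_pos h, if_pos h, mul_one, h]
    · rw [if_neg h, if_neg h, one_mul]
  rw [Finset.prod_congr rfl fun i' _ => h8 i', Finset.prod_mul_distrib,
    Finset.prod_ite_eq', if_pos (Finset.mem_univ i)]

private lemma lined_aeval (A B : MvPolynomial (Fin 2) ℂ) (x y : FunField)
    (P : MvPolynomial (Fin 2) ℂ) : aeval ![x, y] (aeval ![A, B] P) =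
      aeval ![aeval ![x, y] A, aeval ![x, y] B] P := by
  have h : (aeval ![x, y] : MvPolynomial (Fin 2) ℂ →ₐ[ℂ] FunField).comp (aeval ![A, B]) =
      aeval ![aeval ![x, y] A, aeval ![x, y] B] := by
    apply MvPolynomial.algHom_ext
    intro j
    fin_cases j <;> simp
  exact congrArg (fun f => f P) h

private lemma lined_eval (A B : MvPolynomial (Fin 2) ℂ) (z : Fin 2 → ℂ)
    (P : MvPolynomial (Fin 2) ℂ) : eval z (aeval ![A, B] P) = eval ![eval z A, eval z B] P := by
  have h : ((aeval z : MvPolynomial (Fin 2) ℂ →ₐ[ℂ] ℂ).comp (aeval ![A, B])) =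
      aeval ![eval z A, eval z B] := by
    apply MvPolynomial.algHom_ext
    intro j
    fin_cases j <;> simp [MvPolynomial.aeval_eq_eval]
  have h2 := congrArg (fun f => f P) h
  simpa [MvPolynomial.aeval_eq_eval] using h2

/-- Change of coordinates. -/
private lemma lined_subst (D : LineData p) (y : BlowUp p) (s : FunField)
    (A B : MvPolynomial (Fin 2) ℂ) (x x' : FunField) (z : Fin 2 → ℂ)
    (hA : aeval ![D.u, D.v] A = x) (hB : aeval ![D.u, D.v] B = x')
    (hz0 : eval (D.crd y) A = z 0) (hz1 : eval (D.crd y) B = z 1)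
    (h : ∃ P Q : MvPolynomial (Fin 2) ℂ, eval z Q ≠ 0 ∧
      s * aeval ![x, x'] Q = aeval ![x, x'] P) :
    ∃ P Q : MvPolynomial (Fin 2) ℂ, eval (D.crd y) Q ≠ 0 ∧
      s * aeval ![D.u, D.v] Q = aeval ![D.u, D.v] P := by
  obtain ⟨P, Q, hQ, hPQ⟩ := h
  refine ⟨aeval ![A, B] P, aeval ![A, B] Q, ?_, ?_⟩
  · rw [lined_eval, hz0, hz1]
    have : ![z 0, z 1] = z := by
      ext j
      fin_cases j <;> rfl
    rwa [this]
  · rw [lined_aeval, lined_aeval, hA, hB]
    exact hPQ

/-- From `away_reg` and `exc_reg`: `B / M = s ∏ (t - t i)`, and near `exc (k i) L`: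
`T / M - t i = t - t i` and `B / (T - t i M) = s ∏_{i' ≠ i} (t - t i')`. -/
lemma LineData.reg (D : LineData p) (y : BlowUp p) (hy : D.dom y) (s : FunField)
    (hs : Reg p y s) : ∃ P Q : MvPolynomial (Fin 2) ℂ, eval (D.crd y) Q ≠ 0 ∧
      s * aeval ![D.u, D.v] Q = aeval ![D.u, D.v] P := by
  have hc0 := D.row_ne_zero 0
  cases y with
  | away q hq =>
    refine lined_subst D _ s (MvPolynomial.X 0)
      (MvPolynomial.X 1 * ∏ i, (MvPolynomial.X 0 - MvPolynomial.C (D.t i)))
      (lq (D.c 1) (D.c 0)) (lq (D.c 2) (D.c 0)) (D.toFrame.awayCrd (.away q hq)) ?_ ?_ ?_ ?_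
      (D.toFrame.away_reg (h := 1) (.away q hq) ⟨hy.1, by rw [map_one]; exact one_ne_zero⟩ s hs)
    · rw [aeval_X]
      rfl
    · have hp : ∏ i, lq (D.tf i) (D.c 0) ≠ 0 :=
        Finset.prod_ne_zero_iff.2 fun i _ => lq_ne_zero (lined_tf_ne D i) hc0
      rw [map_mul, map_prod, aeval_X]
      have h1 : ∀ i : Fin 3, aeval ![D.u, D.v] (MvPolynomial.X 0 - MvPolynomial.C (D.t i)) =
          lq (D.tf i) (D.c 0) := fun i => by
        rw [map_sub, aeval_X, MvPolynomial.aeval_C, lined_lq_tf]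
        rfl
      rw [Finset.prod_congr rfl fun i _ => h1 i]
      exact div_mul_cancel₀ _ hp
    · rw [eval_X]
      rfl
    · have hp : ∏ i, (lin (D.tf i) q.rep / lin (D.c 0) q.rep) ≠ 0 :=
        Finset.prod_ne_zero_iff.2 fun i _ => div_ne_zero (hy.2.1 i) hy.1
      rw [map_mul, map_prod, eval_X]
      have h1 : ∀ i : Fin 3, eval (D.crd (.away q hq))
          (MvPolynomial.X 0 - MvPolynomial.C (D.t i)) =
            lin (D.tf i) q.rep / lin (D.c 0) q.rep := fun i => by
        rw [map_sub, eval_X, eval_C, D.lin_tf, sub_div, mul_div_cancel_right₀ _ hy.1]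
        rfl
      rw [Finset.prod_congr rfl fun i _ => h1 i]
      exact div_mul_cancel₀ _ hp
  | exc l L =>
    obtain ⟨i, rfl, w, hw, hw'⟩ := hy
    refine lined_subst D _ s (MvPolynomial.X 0 - MvPolynomial.C (D.t i))
      (MvPolynomial.X 1 * ∏ i' : Fin 3,
        (if i' = i then 1 else MvPolynomial.X 0 - MvPolynomial.C (D.t i')))
      (lq (D.tf i) (D.c 0)) (lq (D.c 2) (D.tf i)) ((D.frameAt i).excCrd (.exc (D.k i) L)) ?_ ?_
      ?_ ?_ ((D.frameAt i).exc_reg (h := 1) (.exc (D.k i) L) ⟨rfl, w, hw, hw'⟩ s hs)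
    · rw [map_sub, aeval_X, MvPolynomial.aeval_C, lined_lq_tf]
      rfl
    · rw [map_mul, map_prod, aeval_X]
      have h1 : ∀ i' : Fin 3, aeval ![D.u, D.v]
          (if i' = i then (1 : MvPolynomial (Fin 2) ℂ) else
            MvPolynomial.X 0 - MvPolynomial.C (D.t i')) =
          (if i' = i then (1 : FunField) else lq (D.tf i') (D.c 0)) := fun i' => by
        by_cases h : i' = i
        · rw [if_pos h, if_pos h, map_one]
        · rw [if_neg h, if_neg h, map_sub, aeval_X, MvPolynomial.aeval_C, lined_lq_tf]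
          rfl
      rw [Finset.prod_congr rfl fun i' _ => h1 i']
      have hp : ∏ i', lq (D.tf i') (D.c 0) ≠ 0 :=
        Finset.prod_ne_zero_iff.2 fun i _ => lq_ne_zero (lined_tf_ne D i) hc0
      have hv : D.v * ∏ i', lq (D.tf i') (D.c 0) = lq (D.c 2) (D.c 0) := div_mul_cancel₀ _ hp
      rw [lined_prod D i, ← lq_mul (lined_tf_ne D i) (c := D.c 2) (c'' := D.c 0)] at hv
      have hti := lq_ne_zero (lined_tf_ne D i) hc0
      refine mul_right_cancel₀ hti ?_
      rw [← hv]
      exact (mul_assoc _ _ _).trans (congrArg _ (mul_comm _ _))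
    · rw [map_sub, eval_X, eval_C, D.crd_exc i L]
      exact sub_self _
    · rw [map_mul, map_prod, eval_X, D.crd_exc i L]
      have h1 : ∀ i' : Fin 3, eval ![D.t i, (lin (D.c 2) (LineThrough.dir L) /
          lin (D.tf i) (LineThrough.dir L)) / ∏ i' : Fin 3, if i' = i then 1 else D.t i - D.t i']
          (if i' = i then (1 : MvPolynomial (Fin 2) ℂ) else
            MvPolynomial.X 0 - MvPolynomial.C (D.t i')) =
          (if i' = i then (1 : ℂ) else D.t i - D.t i') := fun i' => by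
        by_cases h : i' = i
        · rw [if_pos h, if_pos h, map_one]
        · rw [if_neg h, if_neg h, map_sub, eval_X, eval_C]
          rfl
      rw [Finset.prod_congr rfl fun i' _ => h1 i']
      have h4 : ∏ i' : Fin 3, (if i' = i then (1 : ℂ) else D.t i - D.t i') ≠ 0 := by
        refine Finset.prod_ne_zero_iff.2 fun i' _ => ?_
        by_cases h : i' = i
        · rw [if_pos h]
          exact one_ne_zero
        · rw [if_neg h]
          exact sub_ne_zero.2 fun e => h (D.t_inj e).symm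
      exact div_mul_cancel₀ _ h4

end

end Pool.Agent.Lib.MP_ee7b66_ag
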