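import Mathlib
import Pool.Agent.Lib.MP_ee7b66_ag.G.LineA
import Pool.Agent.Lib.MP_ee7b66_ag.G.LineB
import Pool.Agent.Lib.MP_ee7b66_ag.G.LineC
import Pool.Agent.Lib.MP_ee7b66_ag.G.LineD

/-!
# The chart along a line
-/

open scoped LinearAlgebra.Projectivization
open Pool.Agent.Lib.MP_8481ed_ag TopologicalSpace MvPolynomial Topology

namespace Pool.Agent.Lib.MP_ee7b66_ag

noncomputable section

variable {r : ℕ} {p : Fin r → Plane ℂ}

/-- The chart `(t, s)` along the strict transform of the line `B = 0`. -/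
def LineData.chart (D : LineData p) : LChart p where
  u := D.u
  v := D.v
  g := D.gpoly
  dom := {y | D.dom y}
  crd := D.crd
  isOpen := D.isOpen_dom
  g_ne := D.g_ne
  surj := D.surj
  inj := fun y hy y' hy' e => D.inj' y y' hy hy' e
  val_u := D.val_u
  val_v := D.val_v
  reg := D.reg

end

end Pool.Agent.Lib.MP_ee7b66_ag
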