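import Mathlib
import Pool.Agent.Lib.MP_ee7b66_ag.Mg.G007
import Pool.Agent.Lib.MP_ee7b66_ag.Mg.G009
import Pool.Agent.Lib.MP_ee7b66_ag.G.Sec
import Pool.Agent.Lib.MP_ee7b66_ag.G.Th
import Pool.Agent.Lib.MP_ee7b66_ag.G.Near

/-!
# The topological model of the surface
-/

open scoped LinearAlgebra.Projectivization
open Pool.Agent.Lib.MP_8481ed_ag TopologicalSpace MvPolynomial Topology
open Pool.Agent.Lib.MP_ee7b66_ag.Top (C2 Sb Rb Pants loc)

namespace Pool.Agent.Lib.MP_ee7b66_ag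

noncomputable section

open Pool.Agent.Lib.MP_ee7b66_ag.Top (Model)

private lemma finC_crd_exc (j : Fin 8) (i₀ : Fin 3) (l : Fin 12) (hl : l = (ld j).k i₀)
    (L : LineThrough (hp l)) : (ld j).crd (.exc l L) 0 = (ld j).t i₀ := by
  subst hl
  rw [LineData.crd_exc]
  rfl

/-- The model exists. -/
theorem exists_model : ∃ D : Model YT, ∀ y : YT, y ∈ D.X ↔ ∀ j, y ∉ ell8 j := by
  obtain ⟨ε, hε, hdisj, ch1, ch2, e1, e2, p1, p2, hcov, hint⟩ := exists_charts
  obtain ⟨δ, hδ, tb, htb, htd, hell, hcrd, hsurj⟩ := exists_tubes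
  choose th hth using exists_th
  have hnear : ∀ (k : Fin 8) (i : Fin 3), ∃ (δ' : ℝ) (φ : ℂ → ℂ), 0 < δ' ∧
      ContinuousOn φ (Metric.ball 0 δ') ∧ (∀ v ∈ Metric.ball (0 : ℂ) δ', φ v ≠ 0) ∧
      ∀ v, v ≠ 0 → v ∈ Metric.ball (0 : ℂ) δ' → ∃ h : loc i v ∈ Pants, ∃ z : Rb,
        tb (inc8 k i) z = th k ⟨loc i v, h⟩ ∧ z.1 1 = v * φ v := by
    intro k i
    obtain ⟨δ₀, φ₀, hδ₀, hφc, hφn, hφ⟩ := near8 k i
    obtain ⟨i₀, hi₀⟩ := exists_kk k i
    let t : ℂ := (ld (inc8 k i)).t i₀
    let A : ℝ := (1 + ‖t‖) ^ 3 / δ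
    have hA : 0 < A := by positivity
    have hcont : ContinuousOn (fun v : ℂ => ‖v * φ₀ v‖ * A) (Metric.ball 0 δ₀) :=
      ((continuousOn_id.mul hφc).norm).mul continuousOn_const
    have h0 : (0 : ℂ) ∈ Metric.ball (0 : ℂ) δ₀ := Metric.mem_ball_self hδ₀
    have hat : ContinuousAt (fun v : ℂ => ‖v * φ₀ v‖ * A) 0 :=
      hcont.continuousAt (Metric.isOpen_ball.mem_nhds h0)
    have hev : ∀ᶠ v in 𝓝 (0 : ℂ), ‖v * φ₀ v‖ * A < 1 := by
      have : (fun v : ℂ => ‖v * φ₀ v‖ * A) 0 < 1 := by simp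
      exact hat.eventually (Iio_mem_nhds this)
    obtain ⟨δ₁, hδ₁, hδ₁'⟩ := Metric.eventually_nhds_iff_ball.1 hev
    refine ⟨min δ₀ δ₁, fun v => φ₀ v * (A : ℂ), lt_min hδ₀ hδ₁, ?_, ?_, ?_⟩
    · exact (hφc.mono (Metric.ball_subset_ball (min_le_left _ _))).mul continuousOn_const
    · intro v hv
      exact mul_ne_zero (hφn v (Metric.ball_subset_ball (min_le_left _ _) hv))
        (by exact_mod_cast hA.ne')
    · intro v hv0 hv
      obtain ⟨h, hL⟩ := hφ v hv0 (Metric.ball_subset_ball (min_le_left _ _) hv)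
      obtain ⟨L, hL1, hL2, hL3⟩ := hth k ⟨loc i v, h⟩
      obtain ⟨hdom, hc1⟩ := hL L hL2 hL3
      have hc0 : (ld (inc8 k i)).crd (.exc (k8 k) L) 0 = t :=
        finC_crd_exc (inc8 k i) i₀ (k8 k) (by rw [ld_k, ← hi₀]) L
      have hlt : ‖v * φ₀ v‖ * A < 1 :=
        hδ₁' v (Metric.ball_subset_ball (min_le_right _ _) hv)
      have htube : Tube (inc8 k i) δ (Aff.pt hp (th k ⟨loc i v, h⟩)) := by
        rw [hL1]
        refine ⟨hdom, ?_⟩
        rw [hc1, hc0]
        have : ‖v * φ₀ v‖ * (1 + ‖t‖) ^ 3 = (‖v * φ₀ v‖ * A) * δ := by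
          simp only [A]
          field_simp
        rw [this]
        calc (‖v * φ₀ v‖ * A) * δ < 1 * δ := mul_lt_mul_of_pos_right hlt hδ
          _ = δ := one_mul δ
      obtain ⟨z, hz⟩ := hsurj _ _ htube
      refine ⟨h, z, hz, ?_⟩
      have h2 := (hcrd (inc8 k i) z).2
      rw [hz, hL1] at h2
      have h3 := congrFun h2 0
      have h4 := congrFun h2 1
      rw [hc0] at h3
      rw [hc1] at h4
      change t = z.1 0 at h3
      change v * φ₀ v = z.1 1 * ((δ / (1 + ‖z.1 0‖) ^ 3 : ℝ) : ℂ) at h4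
      rw [← h3] at h4
      show z.1 1 = v * (φ₀ v * (A : ℂ))
      rw [← mul_assoc, h4, mul_assoc, ← Complex.ofReal_mul]
      have : δ / (1 + ‖t‖) ^ 3 * A = 1 := by
        simp only [A]
        have : (1 + ‖t‖) ≠ 0 := by positivity
        field_simp
      rw [this, Complex.ofReal_one, mul_one]
  refine ⟨{ pi := ⟨piFun, continuous_piFun⟩
            pt := pt8
            ε := ε
            hε := hε
            disj := hdisj
            sec := ⟨secFun, continuous_secFun⟩
            pi_sec := pi_secFun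
            sec_pi := sec_piFun
            ch1 := ch1
            ch2 := ch2
            emb1 := e1
            emb2 := e2
            pi_ch1 := p1
            pi_ch2 := p2
            cover := hcov
            inter := hint
            ell := ell8
            closed := isClosed_ell8
            tb := tb
            emb := htb
            tb_disj := htd
            ell_eq := hell
            th := th
            inc := inc8
            th_mem := ?_
            near := hnear
            inv := inv8 }, fun y => Iff.rfl⟩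
  intro k w j hmem
  obtain ⟨L, hL1, hL2, hL3⟩ := hth k w
  change On hp (.line (hl (j8 j))) (Aff.pt hp (th k w)) at hmem
  rw [hL1] at hmem
  exact th_not_on k j w L hL2 hL3 hmem

end

end Pool.Agent.Lib.MP_ee7b66_ag
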